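import Pool.Agent.W996.EC.Defs

/-! EC project: definitions and exact statements of the curve part. -/

set_option autoImplicit false

namespace Pool.Agent.W996.EC

open Filter Topology Polynomial

/-- `F` is irreducible of positive degree in `v`, and over `{h ≠ 0}` the curve `F = 0` is an
unramified covering of degree `F.natDegree` -/
structure Cov (F : ℂ[X][X]) (h : ℂ[X]) : Prop where
  irr : Irreducible F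
  deg : 1 ≤ F.natDegree
  hne : h ≠ 0
  good : ∀ z : ℂ, h.eval z ≠ 0 → (F.map (evalRingHom z)).natDegree = F.natDegree ∧
    (F.map (evalRingHom z)).Separable

/-- the affine curve `F(z,v) = 0`, `h(z) ≠ 0` -/
def TT (F : ℂ[X][X]) (h : ℂ[X]) : Set (ℂ × ℂ) :=
  {p | F.evalEval p.1 p.2 = 0 ∧ h.eval p.1 ≠ 0}

/-- regular functions on a set `T`: quotients `A / B` of polynomials, `B` without zeros on `T` -/
def Reg (T : Set (ℂ × ℂ)) (g : ℂ × ℂ → ℂ) : Prop :=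
  ∃ A B : ℂ[X][X], ∀ p ∈ T, B.evalEval p.1 p.2 ≠ 0 ∧
    g p = A.evalEval p.1 p.2 / B.evalEval p.1 p.2

/-- `t` is a (logarithmic) parametrisation of a punctured neighbourhood of a place of `T` -/
def IsPlace (T : Set (ℂ × ℂ)) (t : ℂ → ℂ × ℂ) (c0 : ℝ) : Prop :=
  (∀ w : ℂ, w.re < c0 → t w ∈ T) ∧
  DifferentiableOn ℂ (fun w => (t w).1) {w | w.re < c0} ∧
  DifferentiableOn ℂ (fun w => (t w).2) {w | w.re < c0} ∧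
  ∀ g, Reg T g → (∀ w : ℂ, w.re < c0 → g (t w) = 0) ∨
    ∃ (l : ℤ) (G : ℂ → ℂ) (c1 : ℝ), AnalyticAt ℂ G 0 ∧ G 0 ≠ 0 ∧ c1 ≤ c0 ∧
      ∀ w : ℂ, w.re < c1 → g (t w) = Complex.exp (l * w) * G (Complex.exp w)

/-- coprimality with the irreducible polynomial `F` -/
def S_res : Prop := ∀ (F G : ℂ[X][X]), Irreducible F → 1 ≤ F.natDegree → ¬ F ∣ G →
  ∃ (a b : ℂ[X][X]) (ρ : ℂ[X]), ρ ≠ 0 ∧ a * F + b * G = C ρ

/-- existence of a good `h`, divisible by a given nonzero polynomial -/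
def S_cov : Prop := ∀ (F : ℂ[X][X]) (h0 : ℂ[X]), Irreducible F → 1 ≤ F.natDegree → h0 ≠ 0 →
  ∃ h : ℂ[X], h0 ∣ h ∧ Cov F h

/-- local parametrisation by `z` -/
def S_loc : Prop := ∀ (F : ℂ[X][X]) (h : ℂ[X]), Cov F h → ∀ z0 v0 : ℂ, (z0, v0) ∈ TT F h →
  ∃ (ρ : ℝ) (φ : ℂ → ℂ), 0 < ρ ∧ DifferentiableOn ℂ φ (Metric.ball z0 ρ) ∧ φ z0 = v0 ∧
    (∀ z ∈ Metric.ball z0 ρ, (z, φ z) ∈ TT F h) ∧
    -- every point of the curve near `(z0, v0)` is on the graph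
    ∀ᶠ p in 𝓝 (z0, v0), p ∈ TT F h → p.2 = φ p.1

/-- the places over a finite point -/
def S_plf : Prop := ∀ (F : ℂ[X][X]) (h : ℂ[X]), Cov F h → ∀ τ : ℂ,
  ∃ (c0 : ℝ) (N : ℕ) (t : Fin F.natDegree → ℂ → ℂ × ℂ), 0 < N ∧
    (∀ j, IsPlace (TT F h) (t j) c0) ∧
    ∀ w : ℂ, w.re < c0 → ∀ v, (τ + Complex.exp (N * w), v) ∈ TT F h →
      ∃ j, t j w = (τ + Complex.exp (N * w), v)

/-- the places over infinity -/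
def S_pli : Prop := ∀ (F : ℂ[X][X]) (h : ℂ[X]), Cov F h →
  ∃ (c0 : ℝ) (N : ℕ) (t : Fin F.natDegree → ℂ → ℂ × ℂ), 0 < N ∧
    (∀ j, IsPlace (TT F h) (t j) c0) ∧
    ∀ w : ℂ, w.re < c0 → ∀ v, (Complex.exp (- (N * w)), v) ∈ TT F h →
      ∃ j, t j w = (Complex.exp (- (N * w)), v)

/-- a regular function which is bounded at all places is constant; finitely many places suffice -/
def S_bdd : Prop := ∀ (F : ℂ[X][X]) (h : ℂ[X]), Cov F h →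
  ∃ (K : ℕ) (t : Fin K → ℂ → ℂ × ℂ) (c0 : ℝ), (∀ k, IsPlace (TT F h) (t k) c0) ∧
    ∀ g, Reg (TT F h) g → (∀ k, ∃ B c1 : ℝ, ∀ w : ℂ, w.re < c1 → ‖g (t k w)‖ ≤ B) →
      ∃ c : ℂ, ∀ p ∈ TT F h, g p = c

/-- a holomorphic function on `{h ≠ 0}` of polynomial growth is rational -/
def S_rat : Prop := ∀ (h : ℂ[X]) (f : ℂ → ℂ), h ≠ 0 →
  DifferentiableOn ℂ f {z | h.eval z ≠ 0} →
  (∃ (K : ℕ) (B : ℝ), ∀ z, h.eval z ≠ 0 → ‖f z‖ * ‖h.eval z‖ ^ K ≤ B * (1 + ‖z‖) ^ K) →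
  ∃ (a : ℂ[X]) (K : ℕ), ∀ z, h.eval z ≠ 0 → f z * h.eval z ^ K = a.eval z

/-- the curve is connected -/
def S_conn : Prop := ∀ (F : ℂ[X][X]) (h : ℂ[X]), Cov F h → IsPreconnected (TT F h)

/-- logarithmic parametrisation of the solutions of `exp x = R(t)` at a place: vector `a`,
constant `b`, exponentially small remainder `hh` -/
def IsEnd {n : ℕ} (T : Set (ℂ × ℂ)) (R : Fin n → ℂ × ℂ → ℂ) (t : ℂ → ℂ × ℂ) (c0 : ℝ)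
    (a : Fin n → ℤ) (b : Fin n → ℂ) (hh : ℂ → Fin n → ℂ) (C0 : ℝ) : Prop :=
  IsPlace T t c0 ∧ (∀ i, DifferentiableOn ℂ (fun w => hh w i) {w | w.re < c0}) ∧
  (∀ w : ℂ, w.re < c0 → ‖hh w‖ ≤ C0 * Real.exp w.re) ∧
  ∀ w : ℂ, w.re < c0 → ∀ i, Complex.exp ((a i : ℂ) * w + b i + hh w i) = R i (t w)

/-- the functions `R i` are regular units on `T`, multiplicatively independent modulo constants -/
def Indep {n : ℕ} (T : Set (ℂ × ℂ)) (R : Fin n → ℂ × ℂ → ℂ) : Prop :=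
  (∀ i, Reg T (R i)) ∧ (∀ i, ∀ p ∈ T, R i p ≠ 0) ∧
  ∀ m : Fin n → ℤ, m ≠ 0 → ¬ ∃ c : ℂ, ∀ p ∈ T, ∏ i, R i p ^ m i = c

/-- the ends at the places: existence -/
def S_end : Prop := ∀ (n : ℕ) (T : Set (ℂ × ℂ)) (R : Fin n → ℂ × ℂ → ℂ) (t : ℂ → ℂ × ℂ) (c0 : ℝ),
  (∀ i, Reg T (R i)) → (∀ i, ∀ p ∈ T, R i p ≠ 0) → IsPlace T t c0 →
  ∃ (c1 : ℝ) (a : Fin n → ℤ) (b : Fin n → ℂ) (hh : ℂ → Fin n → ℂ) (C0 : ℝ),
    c1 ≤ c0 ∧ IsEnd T R t c1 a b hh C0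

/-- the vectors `a` of the ends span positively -/
def S_pos : Prop := ∀ (n : ℕ) (F : ℂ[X][X]) (h : ℂ[X]) (R : Fin n → ℂ × ℂ → ℂ), Cov F h →
  Indep (TT F h) R → ∀ l : Fin n → ℝ, l ≠ 0 →
  ∃ (t : ℂ → ℂ × ℂ) (c0 : ℝ) (a : Fin n → ℤ) (b : Fin n → ℂ) (hh : ℂ → Fin n → ℂ) (C0 : ℝ),
    IsEnd (TT F h) R t c0 a b hh C0 ∧ ∑ i, l i * (a i : ℝ) < 0

/-- a place where a monomial takes a given value -/
def S_val : Prop := ∀ (n : ℕ) (F : ℂ[X][X]) (h : ℂ[X]) (R : Fin n → ℂ × ℂ → ℂ), Cov F h →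
  Indep (TT F h) R → ∀ (m v0 : Fin n → ℤ) (s : ℂ), ∑ i, m i * v0 i = 1 →
  ∃ (t : ℂ → ℂ × ℂ) (c0 : ℝ) (a : Fin n → ℤ) (b : Fin n → ℂ) (hh : ℂ → Fin n → ℂ) (C0 : ℝ)
    (r : ℕ) (μ : ℂ), 1 ≤ r ∧ μ ≠ 0 ∧ (∀ w : ℂ, w.re < c0 → t w ∈ TT F h) ∧
    (∀ i, DifferentiableOn ℂ (fun w => hh w i) {w | w.re < c0}) ∧
    (∀ w : ℂ, w.re < c0 → ‖hh w‖ ≤ C0 * Real.exp w.re) ∧
    (∀ w : ℂ, w.re < c0 → ∀ i, Complex.exp ((a i : ℂ) * w + b i + hh w i) = R i (t w)) ∧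
    ∑ i, m i * a i = 0 ∧ ∑ i, (m i : ℂ) * b i = s ∧
    ∀ w : ℂ, w.re < c0 → ‖∑ i, (m i : ℂ) * hh w i - μ * Complex.exp (r * w)‖ ≤
      C0 * Real.exp ((r + 1) * w.re)

/-- arcs on which a real linear form of the logarithms takes a given real part -/
def S_arc : Prop := ∀ (n : ℕ) (F : ℂ[X][X]) (h : ℂ[X]) (R : Fin n → ℂ × ℂ → ℂ), Cov F h →
  Indep (TT F h) R → ∀ l : Fin n → ℝ, l ≠ 0 → ∀ σ : ℝ,
  ∃ (z0 : ℂ) (ρ : ℝ) (φ : ℂ → ℂ) (x : ℂ → Fin n → ℂ), 0 < ρ ∧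
    (∀ i, DifferentiableOn ℂ (fun w => x w i) (Metric.ball z0 ρ)) ∧
    (∀ z ∈ Metric.ball z0 ρ, (z, φ z) ∈ TT F h ∧ ∀ i, Complex.exp (x z i) = R i (z, φ z)) ∧
    (¬ ∀ᶠ w in 𝓝 z0, ∑ i, (l i : ℂ) * x w i = ∑ i, (l i : ℂ) * x z0 i) ∧
    (∑ i, (l i : ℂ) * x z0 i).re = σ

end Pool.Agent.W996.EC
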