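import Pool.Agent.W996.EC.Defs

/-! EC project: exact statements of the parts (polynomial part and analytic part). -/

set_option autoImplicit false

namespace Pool.Agent.W996.EC

open MvPolynomial Filter Topology

/-! ### polynomial part -/

/-- pointwise convergence with bounded degree implies coefficientwise convergence -/
def S_pt : Prop := ∀ (n d : ℕ) (p : ℕ → MvPolynomial (Fin n) ℂ) (q : MvPolynomial (Fin n) ℂ),
  (∀ j, (p j).totalDegree ≤ d) →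
  (∀ x : Fin n → ℂ, Tendsto (fun j => eval x (p j)) atTop (𝓝 (eval x q))) → Conv p q

/-- locally uniform convergence along locally uniformly convergent curves -/
def S_unif : Prop := ∀ (n : ℕ) (p : ℕ → MvPolynomial (Fin n) ℂ) (q : MvPolynomial (Fin n) ℂ),
  Conv p q → ∀ (V : Set ℂ) (y : ℕ → ℂ → Fin n → ℂ) (y0 : ℂ → Fin n → ℂ), IsOpen V →
  ContinuousOn y0 V → TendstoLocallyUniformlyOn y y0 atTop V →
  TendstoLocallyUniformlyOn (fun j w => eval (y j w) (p j)) (fun w => eval (y0 w) q) atTop V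

/-- compactness -/
def S_cpt : Prop := ∀ (n d : ℕ) (p : ℕ → MvPolynomial (Fin n) ℂ),
  (∀ j, (p j).totalDegree ≤ d) → (∀ j, p j ≠ 0) →
  ∃ φ : ℕ → ℕ, StrictMono φ ∧ ∃ (c : ℕ → ℂ) (q : MvPolynomial (Fin n) ℂ),
    (∀ j, c j ≠ 0) ∧ q ≠ 0 ∧ q.totalDegree ≤ d ∧ Conv (fun j => C (c j) * p (φ j)) q

/-- diagonal sequences -/
def S_diag : Prop := ∀ (n d : ℕ) (p : ℕ → ℕ → MvPolynomial (Fin n) ℂ)
  (q : ℕ → MvPolynomial (Fin n) ℂ) (r : MvPolynomial (Fin n) ℂ),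
  (∀ i j, (p i j).totalDegree ≤ d) → (∀ i, Conv (p i) (q i)) → Conv q r →
  ∀ G : ℕ → ℕ → Prop, (∀ i, ∀ᶠ j in atTop, G i j) →
  ∃ φ : ℕ → ℕ, (∀ i, G i (φ i)) ∧ Conv (fun i => p i (φ i)) r

/-- joint continuity of translations and dilations -/
def S_join : Prop := ∀ (n : ℕ) (p : ℕ → MvPolynomial (Fin n) ℂ) (q : MvPolynomial (Fin n) ℂ),
  Conv p q → ∀ (lam : ℕ → ℝ) (l0 : ℝ) (k : ℕ → Fin n → ℝ) (k0 : Fin n → ℝ) (c : ℕ → ℂ) (c0 : ℂ),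
  Tendsto lam atTop (𝓝 l0) → Tendsto k atTop (𝓝 k0) → Tendsto c atTop (𝓝 c0) →
  Conv (fun j => C (c j) * tr (lam j) (k j) (p j)) (C c0 * tr l0 k0 q)

/-- closure properties of the sets of limits -/
def S_clos : Prop := ∀ (n : ℕ) (P q r : MvPolynomial (Fin n) ℂ),
  (LimInf P q → LimAny q r → LimInf P r) ∧ (LimOne P q → LimInf q r → LimInf P r) ∧
  (LimOne P q → LimOne q r → LimOne P r)

/-- Hurwitz in several variables -/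
def S_hurN : Prop := ∀ (n : ℕ) (p : ℕ → MvPolynomial (Fin n) ℂ) (q : MvPolynomial (Fin n) ℂ),
  Conv p q → q ≠ 0 → ∀ x : Fin n → ℂ, eval x q = 0 →
  ∃ x' : ℕ → Fin n → ℂ, Tendsto x' atTop (𝓝 x) ∧ ∀ᶠ j in atTop, eval (x' j) (p j) = 0

/-- the top form is a limit -/
def S_top : Prop := ∀ (n : ℕ) (P : MvPolynomial (Fin n) ℂ), P ≠ 0 →
  LimInf P (homogeneousComponent P.totalDegree P) ∧ homogeneousComponent P.totalDegree P ≠ 0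

/-- a form of minimal degree is invariant along its real zeros -/
def S_hom : Prop := ∀ (n : ℕ) (P : MvPolynomial (Fin n) ℂ) (e : ℕ) (f : MvPolynomial (Fin n) ℂ),
  MinDeg P e → LimInf P f → f.IsHomogeneous e →
  ∀ κ : Fin n → ℝ, eval (cx κ) f = 0 → Dk κ f = 0

/-- such a form is a power of a real linear form -/
def S_pow : Prop := ∀ (n : ℕ) (A : Set (Fin n → ℝ)) (e : ℕ) (f : MvPolynomial (Fin n) ℂ),
  1 ≤ e → f ≠ 0 → f.IsHomogeneous e → (∀ κ : Fin n → ℝ, eval (cx κ) f = 0 → Dk κ f = 0) →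
  PosSpan A → Star A f →
  ∃ (c : ℂ) (l : Fin n → ℝ), c ≠ 0 ∧ l ≠ 0 ∧ f = C c * lin l ^ e

/-- Newton scaling -/
def S_newt : Prop := ∀ (n e : ℕ) (c : ℂ) (l : Fin n → ℝ) (p : MvPolynomial (Fin n) ℂ)
  (κ : Fin n → ℝ), 1 ≤ e → c ≠ 0 → l ≠ 0 → (p - C c * lin l ^ e).totalDegree < e →
  dot l κ = 0 → Dk κ p ≠ 0 →
  ∃ r : MvPolynomial (Fin n) ℂ, r ≠ 0 ∧ r.totalDegree + 2 ≤ e ∧ LimInf p (C c * lin l ^ e + r) ∧
    Dk κ r = 0 ∧ ∀ κ' : Fin n → ℝ, dot l κ' = 0 → Dk κ' p = 0 → Dk κ' r = 0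

/-- a polynomial invariant under the kernel of `l` is a polynomial in `l` -/
def S_univ : Prop := ∀ (n : ℕ) (l : Fin n → ℝ) (p : MvPolynomial (Fin n) ℂ), l ≠ 0 →
  (∀ κ : Fin n → ℝ, dot l κ = 0 → Dk κ p = 0) →
  ∃ f : Polynomial ℂ, p = Polynomial.aeval (lin l) f

/-- classification of the limits of minimal degree -/
def S_class : Prop := ∀ (n : ℕ) (A : Set (Fin n → ℝ)) (P : MvPolynomial (Fin n) ℂ) (e : ℕ),
  Hyp A P → MinDeg P e →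
  (∀ p : MvPolynomial (Fin n) ℂ, LimInf P p → p.totalDegree = e →
    ∃ (c : ℂ) (l : Fin n → ℝ) (η : ℝ), c ≠ 0 ∧ l ≠ 0 ∧
      p = C c * (lin l - C (Complex.I * (η : ℂ))) ^ e) ∧
  (P.totalDegree = e → ∃ (l : Fin n → ℝ) (f : Polynomial ℂ), l ≠ 0 ∧
    P = Polynomial.aeval (lin l) f)

/-- descent from scaled limits to unscaled limits -/
def S_ek : Prop := ∀ (n : ℕ) (A : Set (Fin n → ℝ)) (P : MvPolynomial (Fin n) ℂ) (e : ℕ),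
  Hyp A P → MinDeg P e → (∃ q, LimInf P q ∧ q.totalDegree = e) → e < P.totalDegree →
  ∃ P2, LimOne P P2 ∧ 1 ≤ P2.totalDegree ∧ P2.totalDegree ≤ e

/-- Theorem A -/
def S_A : Prop := ∀ (n : ℕ) (A : Set (Fin n → ℝ)) (P : MvPolynomial (Fin n) ℂ),
  Hyp A P → 1 ≤ P.totalDegree →
  ∃ (l : Fin n → ℝ) (f : Polynomial ℂ), l ≠ 0 ∧ 1 ≤ f.natDegree ∧
    LimOne P (Polynomial.aeval (lin l) f)

/-! ### analytic part -/

/-- the left half plane -/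
def LH (c0 : ℝ) : Set ℂ := {w | w.re < c0}

/-- the point `a w + b + h w + 2 π i M` -/
noncomputable def pt {n : ℕ} (a : Fin n → ℝ) (b : Fin n → ℂ) (h : ℂ → Fin n → ℂ) (w : ℂ)
    (M : Fin n → ℤ) : Fin n → ℂ :=
  fun i => (a i : ℂ) * w + b i + h w i + 2 * Real.pi * Complex.I * (M i : ℂ)

/-- the polynomial `P (x + 2 π i M)` -/
noncomputable def trZ {n : ℕ} (M : Fin n → ℤ) (P : MvPolynomial (Fin n) ℂ) :
    MvPolynomial (Fin n) ℂ :=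
  tr 1 (fun i => 2 * Real.pi * (M i : ℝ)) P

/-- every limit satisfies `Star` for an end without zeros -/
def S_star : Prop := ∀ (n : ℕ) (P q : MvPolynomial (Fin n) ℂ) (a : Fin n → ℝ) (b : Fin n → ℂ)
  (h : ℂ → Fin n → ℂ) (c0 C0 : ℝ), (∀ i, DifferentiableOn ℂ (fun w => h w i) (LH c0)) →
  (∀ w ∈ LH c0, ‖h w‖ ≤ C0) → (∀ w ∈ LH c0, ∀ M : Fin n → ℤ, eval (pt a b h w M) P ≠ 0) →
  LimInf P q → Star {a} q

/-- real translations can be replaced by integral ones -/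
def S_r2i : Prop := ∀ (n : ℕ) (P : MvPolynomial (Fin n) ℂ) (l : Fin n → ℝ) (f : Polynomial ℂ),
  1 ≤ f.natDegree → LimOne P (Polynomial.aeval (lin l) f) →
  ∃ (M : ℕ → Fin n → ℤ) (c : ℕ → ℂ) (g : Polynomial ℂ), 1 ≤ g.natDegree ∧
    Conv (fun j => C (c j) * trZ (M j) P) (Polynomial.aeval (lin l) g)

/-- the irrational case -/
def S_irr : Prop := ∀ (n : ℕ) (P : MvPolynomial (Fin n) ℂ) (l : Fin n → ℝ) (g : Polynomial ℂ)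
  (M : ℕ → Fin n → ℤ) (c : ℕ → ℂ) (s : ℂ), g ≠ 0 → g.eval s = 0 →
  Conv (fun j => C (c j) * trZ (M j) P) (Polynomial.aeval (lin l) g) →
  Dense (Set.range fun M : Fin n → ℤ => ∑ i, l i * (M i : ℝ)) →
  ∀ (x : ℂ → Fin n → ℂ) (w0 : ℂ) (ρ : ℝ), 0 < ρ →
  (∀ i, DifferentiableOn ℂ (fun w => x w i) (Metric.ball w0 ρ)) →
  (¬ ∀ᶠ w in 𝓝 w0, ∑ i, (l i : ℂ) * x w i = ∑ i, (l i : ℂ) * x w0 i) →
  (∑ i, (l i : ℂ) * x w0 i).re = s.re →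
  ∃ w ∈ Metric.ball w0 ρ, ∃ N : Fin n → ℤ,
    eval (fun i => x w i + 2 * Real.pi * Complex.I * (N i : ℂ)) P = 0

/-- exponential polynomials with two frequencies have zeros -/
def S_exp : Prop := ∀ (S : Finset ℤ) (Q : ℤ → Polynomial ℂ) (k k' : ℤ), k ∈ S → k' ∈ S → k ≠ k' →
  Q k ≠ 0 → Q k' ≠ 0 → ∃ v : ℂ, ∑ j ∈ S, (Q j).eval v * Complex.exp ((j : ℂ) * v) = 0

/-- the rational case (crossing argument) -/
def S_cross : Prop := ∀ (n : ℕ) (P : MvPolynomial (Fin n) ℂ) (m v0 : Fin n → ℤ) (g : Polynomial ℂ)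
  (M : ℕ → Fin n → ℤ) (c : ℕ → ℂ) (s : ℂ), ∑ i, m i * v0 i = 1 →
  (∀ s' : ℂ, ∃ x : Fin n → ℂ, ∑ i, (m i : ℂ) * x i = s' ∧ eval x P ≠ 0) →
  g ≠ 0 → g.eval s = 0 →
  Conv (fun j => C (c j) * trZ (M j) P) (Polynomial.aeval (lin fun i => (m i : ℝ)) g) →
  ∀ (a : Fin n → ℝ) (b : Fin n → ℂ) (h : ℂ → Fin n → ℂ) (c0 C0 : ℝ) (r : ℕ) (μ : ℂ),
  (∀ i, DifferentiableOn ℂ (fun w => h w i) (LH c0)) →
  (∀ w ∈ LH c0, ‖h w‖ ≤ C0 * Real.exp w.re) →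
  ∑ i, (m i : ℝ) * a i = 0 → ∑ i, (m i : ℂ) * b i = s → 1 ≤ r → μ ≠ 0 →
  (∀ w ∈ LH c0, ‖∑ i, (m i : ℂ) * h w i - μ * Complex.exp (r * w)‖ ≤
    C0 * Real.exp ((r + 1) * w.re)) →
  ∃ w ∈ LH c0, ∃ N : Fin n → ℤ, eval (pt a b h w N) P = 0

/-- a solution near an isolated zero of the leading coefficient -/
def S_lead : Prop := ∀ (n d : ℕ) (κ0 : Fin n → ℤ) (x : ℂ → Fin n → ℂ)
  (p : ℂ → MvPolynomial (Fin n) ℂ) (w0 : ℂ) (ρ : ℝ), 0 < ρ →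
  (∀ i, DifferentiableOn ℂ (fun w => x w i) (Metric.ball w0 ρ)) →
  (∀ m, DifferentiableOn ℂ (fun w => coeff m (p w)) (Metric.ball w0 ρ)) →
  (∀ w, (p w).totalDegree ≤ d) →
  eval (fun i => (κ0 i : ℂ)) (homogeneousComponent d (p w0)) = 0 →
  (¬ ∀ᶠ w in 𝓝 w0, eval (fun i => (κ0 i : ℂ)) (homogeneousComponent d (p w)) = 0) →
  ∃ w ∈ Metric.ball w0 ρ, ∃ N : Fin n → ℤ,
    eval (fun i => x w i + 2 * Real.pi * Complex.I * (N i : ℂ)) (p w) = 0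

/-- a solution near a pole of a coefficient -/
def S_pole : Prop := ∀ (n d : ℕ) (κ0 : Fin n → ℤ) (a : Fin n → ℝ) (b : Fin n → ℂ)
  (h : ℂ → Fin n → ℂ) (c0 C0 : ℝ) (p : ℂ → MvPolynomial (Fin n) ℂ),
  (∀ i, DifferentiableOn ℂ (fun w => h w i) (LH c0)) →
  (∀ w ∈ LH c0, ‖h w‖ ≤ C0 * Real.exp w.re) →
  (∀ m, DifferentiableOn ℂ (fun w => coeff m (p w)) (LH c0)) →
  (∀ w, (p w).totalDegree ≤ d) →
  (∀ L : MvPolynomial (Fin n) ℂ →ₗ[ℂ] ℂ, (∀ w ∈ LH c0, L (p w) = 0) ∨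
    ∃ (o : ℤ) (γ : ℂ) (C1 c1 : ℝ), γ ≠ 0 ∧
      ∀ w ∈ LH c1, ‖L (p w) - γ * Complex.exp (o * w)‖ ≤ C1 * Real.exp ((o + 1) * w.re)) →
  (∀ w ∈ LH c0, eval (fun i => (κ0 i : ℂ)) (homogeneousComponent d (p w)) = 1) →
  (∃ m, ∀ B c1 : ℝ, ∃ w ∈ LH c0, w ∈ LH c1 ∧ B < ‖coeff m (p w)‖) →
  ∃ w ∈ LH c0, ∃ N : Fin n → ℤ, eval (pt a b h w N) (p w) = 0

end Pool.Agent.W996.EC
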