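import Mathlib

/-! EC project (helper996): exponential-algebraic closedness for varieties whose projection to the
torus is a curve.  Definitions and basic API. -/

set_option autoImplicit false

namespace Pool.Agent.W996.EC

open MvPolynomial Filter Topology

variable {n : ℕ}

/-- the polynomial `P (lam x + i k)` -/
noncomputable def tr (lam : ℝ) (k : Fin n → ℝ) (P : MvPolynomial (Fin n) ℂ) :
    MvPolynomial (Fin n) ℂ :=
  bind₁ (fun i => C (lam : ℂ) * X i + C (Complex.I * (k i : ℂ))) P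

/-- convergence of polynomials: bounded degree and coefficientwise -/
def Conv (p : ℕ → MvPolynomial (Fin n) ℂ) (q : MvPolynomial (Fin n) ℂ) : Prop :=
  (∃ d, ∀ j, (p j).totalDegree ≤ d) ∧ ∀ m, Tendsto (fun j => coeff m (p j)) atTop (𝓝 (coeff m q))

/-- nonzero limits of `c_j P (lam_j x + i k_j)`, `lam_j > 0` arbitrary -/
def LimAny (P q : MvPolynomial (Fin n) ℂ) : Prop :=
  q ≠ 0 ∧ ∃ (lam : ℕ → ℝ) (k : ℕ → Fin n → ℝ) (c : ℕ → ℂ), (∀ j, 0 < lam j) ∧
    Conv (fun j => C (c j) * tr (lam j) (k j) P) q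

/-- nonzero limits of `c_j P (lam_j x + i k_j)`, `lam_j → ∞` -/
def LimInf (P q : MvPolynomial (Fin n) ℂ) : Prop :=
  q ≠ 0 ∧ ∃ (lam : ℕ → ℝ) (k : ℕ → Fin n → ℝ) (c : ℕ → ℂ), (∀ j, 0 < lam j) ∧
    Tendsto lam atTop atTop ∧ Conv (fun j => C (c j) * tr (lam j) (k j) P) q

/-- nonzero limits of `c_j P (x + i k_j)` -/
def LimOne (P q : MvPolynomial (Fin n) ℂ) : Prop :=
  q ≠ 0 ∧ ∃ (k : ℕ → Fin n → ℝ) (c : ℕ → ℂ), Conv (fun j => C (c j) * tr 1 (k j) P) q

/-- real vector as a complex vector -/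
noncomputable def cx (κ : Fin n → ℝ) : Fin n → ℂ := fun i => (κ i : ℂ)

/-- pairing of real vectors -/
noncomputable def dot (l κ : Fin n → ℝ) : ℝ := ∑ i, l i * κ i

/-- zero free or zero on every line `a ω + i κ`, `Re ω < 0`, `a ∈ A` -/
def Star (A : Set (Fin n → ℝ)) (q : MvPolynomial (Fin n) ℂ) : Prop :=
  ∀ a ∈ A, ∀ κ : Fin n → ℝ,
    (∀ ω : ℂ, ω.re < 0 → eval (fun i => (a i : ℂ) * ω + Complex.I * (κ i : ℂ)) q ≠ 0) ∨
    (∀ ω : ℂ, eval (fun i => (a i : ℂ) * ω + Complex.I * (κ i : ℂ)) q = 0)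

/-- `A` spans the space positively -/
def PosSpan (A : Set (Fin n → ℝ)) : Prop :=
  ∀ l : Fin n → ℝ, l ≠ 0 → ∃ a ∈ A, dot l a < 0

/-- the linear form with real coefficients `l`, as a polynomial -/
noncomputable def lin (l : Fin n → ℝ) : MvPolynomial (Fin n) ℂ :=
  ∑ i, C (l i : ℂ) * X i

/-- derivative in the direction `κ` -/
noncomputable def Dk (κ : Fin n → ℝ) (p : MvPolynomial (Fin n) ℂ) : MvPolynomial (Fin n) ℂ :=
  ∑ i, C (κ i : ℂ) * pderiv i p

/-- the standing hypothesis on `P` -/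
def Hyp (A : Set (Fin n → ℝ)) (P : MvPolynomial (Fin n) ℂ) : Prop :=
  PosSpan A ∧ ∀ q, LimInf P q → Star A q

/-- `e` is a lower bound for the degrees of the nonconstant elements of `LimInf P` -/
def MinDeg (P : MvPolynomial (Fin n) ℂ) (e : ℕ) : Prop :=
  1 ≤ e ∧ ∀ q, LimInf P q → 1 ≤ q.totalDegree → e ≤ q.totalDegree

/-! ### basic API -/

theorem eval_tr (lam : ℝ) (k : Fin n → ℝ) (P : MvPolynomial (Fin n) ℂ) (x : Fin n → ℂ) :
    eval x (tr lam k P) = eval (fun i => (lam : ℂ) * x i + Complex.I * (k i : ℂ)) P := by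
  unfold tr
  rw [← MvPolynomial.coe_aeval_eq_eval, ← MvPolynomial.coe_aeval_eq_eval]
  simp only [RingHom.coe_coe]
  rw [MvPolynomial.aeval_bind₁]
  congr 1
  simp

theorem eval_lin (l : Fin n → ℝ) (x : Fin n → ℂ) : eval x (lin l) = ∑ i, (l i : ℂ) * x i := by
  simp [lin]

theorem tr_tr (lam mu : ℝ) (k κ : Fin n → ℝ) (P : MvPolynomial (Fin n) ℂ) :
    tr lam k (tr mu κ P) = tr (mu * lam) (fun i => mu * k i + κ i) P := by
  apply MvPolynomial.funext
  intro x
  rw [eval_tr, eval_tr, eval_tr]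
  congr 1
  apply congrArg
  funext i
  push_cast
  ring

theorem tr_one_zero (P : MvPolynomial (Fin n) ℂ) : tr 1 0 P = P := by
  apply MvPolynomial.funext
  intro x
  rw [eval_tr]
  simp

theorem tr_C (lam : ℝ) (k : Fin n → ℝ) (c : ℂ) : tr lam k (C c) = C c := by
  unfold tr; simp

theorem tr_mul (lam : ℝ) (k : Fin n → ℝ) (P Q : MvPolynomial (Fin n) ℂ) :
    tr lam k (P * Q) = tr lam k P * tr lam k Q := by
  unfold tr; simp

theorem tr_add (lam : ℝ) (k : Fin n → ℝ) (P Q : MvPolynomial (Fin n) ℂ) :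
    tr lam k (P + Q) = tr lam k P + tr lam k Q := by
  unfold tr; simp

theorem totalDegree_tr_le (lam : ℝ) (k : Fin n → ℝ) (P : MvPolynomial (Fin n) ℂ) :
    (tr lam k P).totalDegree ≤ P.totalDegree := by
  unfold tr
  rw [bind₁, aeval_def, eval₂_eq']
  refine totalDegree_finsetSum_le fun m hm => ?_
  refine (totalDegree_mul _ _).trans ?_
  rw [show (algebraMap ℂ (MvPolynomial (Fin n) ℂ)) (coeff m P) = C (coeff m P) from rfl,
    totalDegree_C, zero_add]
  refine (totalDegree_finsetProd _ _).trans ?_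
  have h1 : ∀ i ∈ Finset.univ, ((C (lam : ℂ) * X i + C (Complex.I * (k i : ℂ)) :
      MvPolynomial (Fin n) ℂ) ^ m i).totalDegree ≤ m i := by
    intro i _
    refine (totalDegree_pow _ _).trans ?_
    have h2 : (C (lam : ℂ) * X i + C (Complex.I * (k i : ℂ)) :
        MvPolynomial (Fin n) ℂ).totalDegree ≤ 1 := by
      refine (totalDegree_add _ _).trans (max_le ?_ ?_)
      · refine (totalDegree_mul _ _).trans ?_
        rw [totalDegree_C, totalDegree_X]
      · rw [totalDegree_C]; exact Nat.zero_le _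
    calc m i * _ ≤ m i * 1 := Nat.mul_le_mul_left _ h2
      _ = m i := mul_one _
  refine (Finset.sum_le_sum h1).trans ?_
  have h3 := le_totalDegree hm
  rwa [Finsupp.sum_fintype _ _ (fun _ => rfl)] at h3

theorem tr_inv (lam : ℝ) (hl : lam ≠ 0) (k : Fin n → ℝ) (P : MvPolynomial (Fin n) ℂ) :
    tr lam⁻¹ (fun i => - lam⁻¹ * k i) (tr lam k P) = P := by
  rw [tr_tr, mul_inv_cancel₀ hl]
  have : (fun i => lam * (-lam⁻¹ * k i) + k i) = 0 := by
    funext i
    simp only [Pi.zero_apply]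
    field_simp
    ring
  rw [this, tr_one_zero]

theorem totalDegree_tr (lam : ℝ) (hl : lam ≠ 0) (k : Fin n → ℝ) (P : MvPolynomial (Fin n) ℂ) :
    (tr lam k P).totalDegree = P.totalDegree := by
  apply le_antisymm (totalDegree_tr_le _ _ _)
  conv_lhs => rw [← tr_inv lam hl k P]
  exact totalDegree_tr_le _ _ _

theorem tr_ne_zero (lam : ℝ) (hl : lam ≠ 0) (k : Fin n → ℝ) {P : MvPolynomial (Fin n) ℂ}
    (hP : P ≠ 0) : tr lam k P ≠ 0 := by
  intro h
  apply hP
  rw [← tr_inv lam hl k P, h]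
  unfold tr
  simp

end Pool.Agent.W996.EC
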