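import Pool.Agent.W996.EC.Prep

/-! EC project: statements for the application to quasiminimality. -/

set_option autoImplicit false

namespace Pool.Agent.W996.EC

open Polynomial

/-- the general existence theorem over a good cover -/
def S_gen : Prop := ∀ (n : ℕ) (F : ℂ[X][X]) (h : ℂ[X]) (R : Fin n → ℂ × ℂ → ℂ), Cov F h →
  Indep (TT F h) R → ∀ P : MvPolynomial (Fin n) ℂ[X][X],
  (∃ p ∈ TT F h, 1 ≤ (spec P p.1 p.2).totalDegree) →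
  (∀ m : Fin n → ℤ, m ≠ 0 → ∀ c : ℂ, ∃ x : Fin n → ℂ, ∑ i, (m i : ℂ) * x i = c ∧
    ∃ p ∈ TT F h, MvPolynomial.eval x (spec P p.1 p.2) ≠ 0) →
  ∃ p ∈ TT F h, ∃ x : Fin n → ℂ, (∀ i, Complex.exp (x i) = R i p) ∧
    MvPolynomial.eval x (spec P p.1 p.2) = 0

/-- the solutions of `exp x = R(t)`, `t ∈ T` -/
def ET {n : ℕ} (T : Set (ℂ × ℂ)) (R : Fin n → ℂ × ℂ → ℂ) : Set ((ℂ × ℂ) × (Fin n → ℂ)) :=
  {e | e.1 ∈ T ∧ ∀ i, Complex.exp (e.2 i) = R i e.1}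

/-- up to constant factors there are only countably many polynomials in `x` with regular
coefficients on the curve which have no zero on `E_T` -/
def S_cnt : Prop := ∀ (n : ℕ) (F : ℂ[X][X]) (h : ℂ[X]) (R : Fin n → ℂ × ℂ → ℂ), Cov F h →
  Indep (TT F h) R → ∃ Z : Set (MvPolynomial (Fin n) ℂ[X][X]), Z.Countable ∧
    ∀ P : MvPolynomial (Fin n) ℂ[X][X],
      (∀ e ∈ ET (TT F h) R, MvPolynomial.eval e.2 (spec P e.1.1 e.1.2) ≠ 0) →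
      ∃ Q ∈ Z, ∃ c : ℂ, c ≠ 0 ∧
        ∀ p ∈ TT F h, spec P p.1 p.2 = MvPolynomial.C c * spec Q p.1 p.2

/-- dichotomy for entire families, independent case -/
def S_dich : Prop := ∀ (n : ℕ) (F : ℂ[X][X]) (h : ℂ[X]) (R : Fin n → ℂ × ℂ → ℂ), Cov F h →
  Indep (TT F h) R → ∀ (K : ℕ) (f : Fin K → ℂ → ℂ) (P : Fin K → MvPolynomial (Fin n) ℂ[X][X]),
  (∀ k, Differentiable ℂ (f k)) →
  {s : ℂ | ∃ e ∈ ET (TT F h) R,
    ∑ k, f k s * MvPolynomial.eval e.2 (spec (P k) e.1.1 e.1.2) = 0}.Countable ∨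
  {s : ℂ | ∃ e ∈ ET (TT F h) R,
    ∑ k, f k s * MvPolynomial.eval e.2 (spec (P k) e.1.1 e.1.2) = 0}ᶜ.Countable

/-- dichotomy for entire families over a good cover, units `R i` not necessarily independent -/
def S_dich' : Prop := ∀ (n : ℕ) (F : ℂ[X][X]) (h : ℂ[X]) (R : Fin n → ℂ × ℂ → ℂ), Cov F h →
  (∀ i, Reg (TT F h) (R i)) → (∀ i, ∀ p ∈ TT F h, R i p ≠ 0) →
  ∀ (K : ℕ) (f : Fin K → ℂ → ℂ) (P : Fin K → MvPolynomial (Fin n) ℂ[X][X]),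
  (∀ k, Differentiable ℂ (f k)) →
  {s : ℂ | ∃ e ∈ ET (TT F h) R,
    ∑ k, f k s * MvPolynomial.eval e.2 (spec (P k) e.1.1 e.1.2) = 0}.Countable ∨
  {s : ℂ | ∃ e ∈ ET (TT F h) R,
    ∑ k, f k s * MvPolynomial.eval e.2 (spec (P k) e.1.1 e.1.2) = 0}ᶜ.Countable

/-- the set of parameters `s` for which the system `F(z,v) = 0`, `exp x_i = (A_i/B_i)(z,v)`,
`∑ f_k(s) P_k(x; z, v) = 0` (with `H, A_i, B_i ≠ 0`) is solvable -/
def XSet {n K : ℕ} (F H : ℂ[X][X]) (A B : Fin n → ℂ[X][X]) (f : Fin K → ℂ → ℂ)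
    (P : Fin K → MvPolynomial (Fin n) ℂ[X][X]) : Set ℂ :=
  {s | ∃ (z v : ℂ) (x : Fin n → ℂ), F.evalEval z v = 0 ∧ H.evalEval z v ≠ 0 ∧
    (∀ i, (A i).evalEval z v ≠ 0 ∧ (B i).evalEval z v ≠ 0) ∧
    (∀ i, Complex.exp (x i) = (A i).evalEval z v / (B i).evalEval z v) ∧
    ∑ k, f k s * MvPolynomial.eval x (spec (P k) z v) = 0}

/-- the final dichotomy -/
def S_Q : Prop := ∀ (n : ℕ) (F H : ℂ[X][X]) (A B : Fin n → ℂ[X][X]) (K : ℕ)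
  (f : Fin K → ℂ → ℂ) (P : Fin K → MvPolynomial (Fin n) ℂ[X][X]),
  Irreducible F → 1 ≤ F.natDegree → ¬ F ∣ H → (∀ i, ¬ F ∣ A i) → (∀ i, ¬ F ∣ B i) →
  (∀ k, Differentiable ℂ (f k)) →
  (XSet F H A B f P).Countable ∨ (XSet F H A B f P)ᶜ.Countable

end Pool.Agent.W996.EC
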