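import Pool.Agent.W996.EC.MainThm
import Pool.Agent.W578.ECPt
import Pool.Agent.W918.ECUnif
import Pool.Agent.W505.ECCpt
import Pool.Agent.W505.ECEk
import Pool.Agent.W565.EC.Clos
import Pool.Agent.W565.EC.Newt
import Pool.Agent.W565.EC.Class
import Pool.Agent.W721.EC.Pow
import Pool.Agent.W806.ECStar
import Pool.Agent.W366.EC.Irr
import Pool.Agent.W337.EC.Exp
import Pool.Agent.W337.EC.End
import Pool.Agent.W177.EC.Cross
import Pool.Agent.W114.ECRes
import Pool.Agent.W114.ECConn
import Pool.Agent.W973.EC.Loc
import Pool.Agent.W605.EC.PL
import Pool.Agent.W101.EC.Bdd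
import Pool.Agent.W803.EC.Val
import Pool.Agent.W695.ECPole
import Pool.Agent.W366.EC.Kern
import Pool.Agent.W597.EC.Plane
import Pool.Agent.W333.ECV.D
import Pool.Agent.W996.EC.QStm

/-! EC project: the explicit main theorem, all parts. -/

set_option autoImplicit false

namespace Pool.Agent.W996.EC

open Pool.Agent

theorem gen_of_pole (hpole : S_pole) : S_main ∧ S_gen := by
  have pt := W578.ECPt.t_pt
  have join := W578.ECPt.t_join
  have unif := W918.ECUnif.t_unif
  have hurN := W918.ECUnif.t_hurN
  have cpt := W505.EC.t_cpt
  have diag := W505.EC.t_diag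
  have clos := W565.EC.t_clos diag join
  have top := W565.EC.t_top
  have hom := W565.EC.t_hom clos pt
  have newt := W565.EC.t_newt pt
  have pow := W721.EC.t_pow
  have univ := W721.EC.t_univ
  have class' := W565.EC.t_class pt clos top hom pow newt univ
  have ek := W505.EC.t_ek clos top class' cpt hurN join
  have A := W565.EC.t_A clos top class' ek
  have r2i := W565.EC.t_r2i join
  have star := W806.EC.t_star unif
  have irr := W366.EC.t_irr unif
  have lead := W366.EC.t_lead
  have exp' := W337.EC.t_exp
  have cross := W177.EC.t_cross exp' unif cpt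
  have res := W114.ECR.t_res
  have cov := W114.ECR.t_cov
  have conn := W114.ECC.t_conn
  have loc := W973.EC.t_loc
  have plf := W605.EC.t_plf
  have pli := W605.EC.t_pli
  have bdd := W101.EC.t_bdd plf pli res loc
  have end' := W337.EC.t_end
  have pos := W337.EC.t_pos end' bdd
  have arc := W973.EC.t_arc loc conn pos
  have val := W803.ECV.t_val end' bdd res
  exact ⟨main_thm A star r2i irr cross pos val arc lead res cov loc hpole end' bdd,
    gen_case' A star r2i irr cross pos val arc lead res loc hpole end' bdd⟩

/-- the existence theorem over a good cover -/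
theorem gen : S_gen := (gen_of_pole W695.ECPole.t_pole).2

/-- the explicit existence theorem -/
theorem main : S_main := (gen_of_pole W695.ECPole.t_pole).1

/-- the theorem for varieties -/
theorem ecV : S_V := W333.ECV.t_V W114.ECR.t_res W114.ECR.t_cov W366.EC.t_kern
  W597.EC.t_plane main

end Pool.Agent.W996.EC
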