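import Pool.Agent.W996.EC.Prod

/-! EC project: assembly of the general case. -/

set_option autoImplicit false

namespace Pool.Agent.W996.EC

open Filter Topology Polynomial

theorem evalEval_sum_range (G : ℂ[X][X]) (z v : ℂ) :
    G.evalEval z v = ∑ i ∈ Finset.range (G.natDegree + 1), (G.coeff i).eval z * v ^ i := by
  rw [evalEval_map, Polynomial.eval_eq_sum_range' (n := G.natDegree + 1)]
  · refine Finset.sum_congr rfl fun i _ => ?_
    rw [coeff_map, coe_evalRingHom]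
  · exact Nat.lt_succ_of_le natDegree_map_le

theorem diff_evalEval (G : ℂ[X][X]) {U : Set ℂ} {z v : ℂ → ℂ} (hz : DifferentiableOn ℂ z U)
    (hv : DifferentiableOn ℂ v U) : DifferentiableOn ℂ (fun w => G.evalEval (z w) (v w)) U := by
  have h1 : (fun w => G.evalEval (z w) (v w)) = fun w =>
      ∑ i ∈ Finset.range (G.natDegree + 1), (G.coeff i).eval (z w) * (v w) ^ i := by
    funext w
    exact evalEval_sum_range G _ _
  rw [h1]
  apply DifferentiableOn.fun_sum
  intro i _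
  apply DifferentiableOn.mul
  · exact (G.coeff i).differentiable.comp_differentiableOn hz
  · exact hv.pow i

theorem exists_logs {n : ℕ} (G : Fin n → ℂ → ℂ) (z0 : ℂ) (ρ : ℝ) (hρ : 0 < ρ)
    (hG : ∀ i, DifferentiableOn ℂ (G i) (Metric.ball z0 ρ)) (hG0 : ∀ i, G i z0 ≠ 0) :
    ∃ ρ' : ℝ, 0 < ρ' ∧ ρ' ≤ ρ ∧ ∃ x : ℂ → Fin n → ℂ,
      (∀ i, DifferentiableOn ℂ (fun z => x z i) (Metric.ball z0 ρ')) ∧
      ∀ z ∈ Metric.ball z0 ρ', ∀ i, Complex.exp (x z i) = G i z := by
  have hb : Metric.ball z0 ρ ∈ 𝓝 z0 := Metric.ball_mem_nhds z0 hρ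
  have h1 : ∀ᶠ z in 𝓝 z0, ∀ i, G i z / G i z0 ∈ Complex.slitPlane := by
    rw [eventually_all]
    intro i
    have h2 : ContinuousAt (fun z => G i z / G i z0) z0 :=
      ((hG i).differentiableAt hb).continuousAt.div_const _
    apply h2.eventually
    apply Complex.isOpen_slitPlane.mem_nhds
    simp only [div_self (hG0 i)]
    exact Complex.one_mem_slitPlane
  obtain ⟨ρ', hρ', hball⟩ := Metric.eventually_nhds_iff_ball.1 (h1.and (Filter.eventually_mem_set.2 hb))
  have hsub : Metric.ball z0 (min ρ' ρ) ⊆ Metric.ball z0 ρ :=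
    Metric.ball_subset_ball (min_le_right _ _)
  refine ⟨min ρ' ρ, lt_min hρ' hρ, min_le_right _ _,
    fun z i => Complex.log (G i z / G i z0) + Complex.log (G i z0), ?_, ?_⟩
  · intro i
    apply DifferentiableOn.add_const
    apply DifferentiableOn.clog
    · exact ((hG i).mono hsub).div_const _
    · intro z hz
      exact (hball z (Metric.ball_subset_ball (min_le_left _ _) hz)).1 i
  · intro z hz i
    have h2 := (hball z (Metric.ball_subset_ball (min_le_left _ _) hz)).1 i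
    rw [Complex.exp_add, Complex.exp_log (Complex.slitPlane_ne_zero h2), Complex.exp_log (hG0 i),
      div_mul_cancel₀ _ (hG0 i)]

theorem spec_hom {n : ℕ} (P : MvPolynomial (Fin n) ℂ[X][X]) (d : ℕ) (z v : ℂ) :
    spec (MvPolynomial.homogeneousComponent d P) z v =
      MvPolynomial.homogeneousComponent d (spec P z v) := by
  ext m
  rw [coeff_spec, MvPolynomial.coeff_homogeneousComponent, MvPolynomial.coeff_homogeneousComponent,
    coeff_spec]
  split_ifs <;> simp

/-- the leading coefficient of `P(x + N κ0)` in `N` -/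
noncomputable def lead {n : ℕ} (P : MvPolynomial (Fin n) ℂ[X][X]) (d : ℕ) (κ0 : Fin n → ℤ) :
    ℂ[X][X] :=
  atx (MvPolynomial.homogeneousComponent d P) (fun i => (κ0 i : ℂ))

theorem evalEval_lead {n : ℕ} (P : MvPolynomial (Fin n) ℂ[X][X]) (d : ℕ) (κ0 : Fin n → ℤ)
    (z v : ℂ) : (lead P d κ0).evalEval z v =
      MvPolynomial.eval (fun i => (κ0 i : ℂ)) (MvPolynomial.homogeneousComponent d (spec P z v)) := by
  unfold lead
  rw [evalEval_atx, spec_hom]

/-- a regular function along a holomorphic curve in `T` is holomorphic -/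
theorem Reg.diff {T : Set (ℂ × ℂ)} {g : ℂ × ℂ → ℂ} (hg : Reg T g) {U : Set ℂ} {t : ℂ → ℂ × ℂ}
    (ht : ∀ w ∈ U, t w ∈ T) (h1 : DifferentiableOn ℂ (fun w => (t w).1) U)
    (h2 : DifferentiableOn ℂ (fun w => (t w).2) U) : DifferentiableOn ℂ (fun w => g (t w)) U := by
  obtain ⟨A, B, hAB⟩ := hg
  have h3 : DifferentiableOn ℂ (fun w => A.evalEval (t w).1 (t w).2 / B.evalEval (t w).1 (t w).2) U :=
    (diff_evalEval A h1 h2).div (diff_evalEval B h1 h2) fun w hw => (hAB _ (ht w hw)).1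
  exact h3.congr fun w hw => (hAB _ (ht w hw)).2

/-- case (i): the leading coefficient has a zero on `T` -/
theorem case_lead (hlead : S_lead) (hres : S_res) (hloc : S_loc)
    {n : ℕ} {F : ℂ[X][X]} {h : ℂ[X]} (hC : Cov F h)
    {R : Fin n → ℂ × ℂ → ℂ} (hI : Indep (TT F h) R) (P : MvPolynomial (Fin n) ℂ[X][X]) (d : ℕ)
    (hle : ∀ p ∈ TT F h, (spec P p.1 p.2).totalDegree ≤ d) (κ0 : Fin n → ℤ)
    (hκ : ¬ F ∣ lead P d κ0) (p0 : ℂ × ℂ) (hp0 : p0 ∈ TT F h)
    (hu : (lead P d κ0).evalEval p0.1 p0.2 = 0) :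
    ∃ p ∈ TT F h, ∃ x : Fin n → ℂ, (∀ i, Complex.exp (x i) = R i p) ∧
      MvPolynomial.eval x (spec P p.1 p.2) = 0 := by
  classical
  obtain ⟨ρ, φ, hρ, hφ, hφ0, hφT, -⟩ := hloc F h hC p0.1 p0.2 hp0
  have hid : DifferentiableOn ℂ (fun w : ℂ => w) (Metric.ball p0.1 ρ) := differentiableOn_id
  obtain ⟨ρ', hρ', hle', x, hx1, hx2⟩ := exists_logs (fun i z => R i (z, φ z)) p0.1 ρ hρ
    (fun i => (hI.1 i).diff (t := fun z => (z, φ z)) hφT hid hφ)
    (fun i => hI.2.1 i _ (hφT _ (Metric.mem_ball_self hρ)))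
  have hsub : Metric.ball p0.1 ρ' ⊆ Metric.ball p0.1 ρ := Metric.ball_subset_ball hle'
  set q : ℂ → MvPolynomial (Fin n) ℂ := fun w =>
    if w ∈ Metric.ball p0.1 ρ' then spec P w (φ w) else 0 with hq
  have hqe : ∀ w ∈ Metric.ball p0.1 ρ', q w = spec P w (φ w) := fun w hw => by
    simp only [hq, if_pos hw]
  have hmem0 : p0.1 ∈ Metric.ball p0.1 ρ' := Metric.mem_ball_self hρ'
  have a1 : ∀ m, DifferentiableOn ℂ (fun w => MvPolynomial.coeff m (q w))
      (Metric.ball p0.1 ρ') := by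
    intro m
    have h1 : DifferentiableOn ℂ (fun w => (MvPolynomial.coeff m P).evalEval w (φ w))
        (Metric.ball p0.1 ρ') := diff_evalEval _ (hid.mono hsub) (hφ.mono hsub)
    refine h1.congr fun w hw => ?_
    show MvPolynomial.coeff m (q w) = _
    rw [hqe w hw, coeff_spec]
  have a2 : ∀ w, (q w).totalDegree ≤ d := by
    intro w
    by_cases hw : w ∈ Metric.ball p0.1 ρ'
    · rw [hqe w hw]
      exact hle (w, φ w) (hφT w (hsub hw))
    · have : q w = 0 := by simp only [hq, if_neg hw]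
      rw [this, MvPolynomial.totalDegree_zero]
      exact Nat.zero_le _
  have a3 : MvPolynomial.eval (fun i => (κ0 i : ℂ))
      (MvPolynomial.homogeneousComponent d (q p0.1)) = 0 := by
    rw [hqe _ hmem0, ← evalEval_lead, hφ0]
    exact hu
  have a4 : ¬ ∀ᶠ w in 𝓝 p0.1, MvPolynomial.eval (fun i => (κ0 i : ℂ))
      (MvPolynomial.homogeneousComponent d (q w)) = 0 := by
    intro hev
    obtain ⟨r, hr0, hr⟩ := finite_zeros hres hC.irr hC.deg hκ
    have h1 : ∀ᶠ w in 𝓝 p0.1, r.eval w = 0 := by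
      have hb : ∀ᶠ w in 𝓝 p0.1, w ∈ Metric.ball p0.1 ρ' := Metric.ball_mem_nhds _ hρ'
      filter_upwards [hev, hb] with w h2 h3
      rw [hqe w h3, ← evalEval_lead] at h2
      exact hr w (φ w) (hφT w (hsub h3)).1 h2
    have h2 : {w | r.eval w = 0}.Finite := by
      have := Polynomial.finite_setOfPred_isRoot hr0
      exact this
    have h3 : {w | r.eval w = 0}.Infinite := infinite_of_mem_nhds p0.1 h1
    exact h3 h2
  obtain ⟨w, hw, N, hN⟩ := hlead n d κ0 x q p0.1 ρ' hρ' hx1 a1 a2 a3 a4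
  refine ⟨(w, φ w), hφT w (hsub hw), _, exp_shift (hx2 w hw) N, ?_⟩
  rw [hqe w hw] at hN
  exact hN

end Pool.Agent.W996.EC
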