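import Pool.Agent.W996.EC.Gen

/-! EC project: assembly of the general case, part 2. -/

set_option autoImplicit false

namespace Pool.Agent.W996.EC

open Filter Topology Polynomial

theorem analytic_bound {G : ℂ → ℂ} (hG : AnalyticAt ℂ G 0) :
    ∃ C c : ℝ, ∀ w : ℂ, w.re < c → ‖G (Complex.exp w) - G 0‖ ≤ C * Real.exp w.re := by
  have h1 := hG.differentiableAt.isBigO_sub
  obtain ⟨C, hC⟩ := h1.bound
  obtain ⟨ε, hε, hball⟩ := Metric.eventually_nhds_iff_ball.1 hC
  refine ⟨C, Real.log ε, fun w hw => ?_⟩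
  have h2 : ‖Complex.exp w‖ < ε := by
    rw [Complex.norm_exp, ← Real.lt_log_iff_exp_lt hε]
    exact hw
  have h3 := hball (Complex.exp w) (by rw [mem_ball_zero_iff]; exact h2)
  rw [sub_zero, Complex.norm_exp] at h3
  exact h3

/-- value of a linear functional on a specialisation -/
theorem functional_spec {n : ℕ} (P : MvPolynomial (Fin n) ℂ[X][X])
    (L : MvPolynomial (Fin n) ℂ →ₗ[ℂ] ℂ) (z v : ℂ) :
    L (spec P z v) = (∑ m ∈ P.support, C (C (L (MvPolynomial.monomial m 1))) *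
      MvPolynomial.coeff m P).evalEval z v := by
  have h1 : spec P z v = ∑ m ∈ P.support,
      ((MvPolynomial.coeff m P).evalEval z v) • MvPolynomial.monomial m (1 : ℂ) := by
    ext k
    rw [coeff_spec, MvPolynomial.coeff_sum]
    simp only [MvPolynomial.coeff_smul, MvPolynomial.coeff_monomial, smul_eq_mul, mul_ite, mul_one,
      mul_zero]
    rw [Finset.sum_ite_eq' P.support k]
    split_ifs with h
    · rfl
    · rw [MvPolynomial.notMem_support_iff.1 h, evalEval_zero]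
  rw [h1, map_sum, evalEval_finsetSum]
  refine Finset.sum_congr rfl fun m _ => ?_
  rw [map_smul, smul_eq_mul, evalEval_mul, evalEval_C, eval_C, mul_comm]

/-- case (ii): the leading coefficient has no zero, some quotient has a pole at a place -/
theorem case_pole (hpole : S_pole) (hend : S_end)
    {n : ℕ} {F : ℂ[X][X]} {h : ℂ[X]} (hC : Cov F h)
    {R : Fin n → ℂ × ℂ → ℂ} (hI : Indep (TT F h) R) (P : MvPolynomial (Fin n) ℂ[X][X]) (d : ℕ)
    (hle : ∀ p ∈ TT F h, (spec P p.1 p.2).totalDegree ≤ d) (κ0 : Fin n → ℤ)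
    (hu : ∀ p ∈ TT F h, (lead P d κ0).evalEval p.1 p.2 ≠ 0) (t : ℂ → ℂ × ℂ) (c0 : ℝ)
    (ht : IsPlace (TT F h) t c0) (m : Fin n →₀ ℕ)
    (hunb : ¬ ∃ B c1 : ℝ, ∀ w : ℂ, w.re < c1 →
      ‖(MvPolynomial.coeff m P).evalEval (t w).1 (t w).2 /
        (lead P d κ0).evalEval (t w).1 (t w).2‖ ≤ B) :
    ∃ p ∈ TT F h, ∃ x : Fin n → ℂ, (∀ i, Complex.exp (x i) = R i p) ∧
      MvPolynomial.eval x (spec P p.1 p.2) = 0 := by
  classical
  obtain ⟨c1, a, b, hh, C0, hc1, hE⟩ := hend n (TT F h) R t c0 hI.1 hI.2.1 ht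
  set U := lead P d κ0 with hU
  set q : ℂ → MvPolynomial (Fin n) ℂ := fun w =>
    if w.re < c1 then MvPolynomial.C (U.evalEval (t w).1 (t w).2)⁻¹ * spec P (t w).1 (t w).2
    else 0 with hq
  have hqe : ∀ w : ℂ, w.re < c1 → q w =
      MvPolynomial.C (U.evalEval (t w).1 (t w).2)⁻¹ * spec P (t w).1 (t w).2 := fun w hw => by
    simp only [hq, if_pos hw]
  have hmem : ∀ w : ℂ, w.re < c1 → t w ∈ TT F h := hE.1.1
  have hU0 : ∀ w : ℂ, w.re < c1 → U.evalEval (t w).1 (t w).2 ≠ 0 := fun w hw => hu _ (hmem w hw)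
  have a1 : ∀ m, DifferentiableOn ℂ (fun w => MvPolynomial.coeff m (q w)) (LH c1) := by
    intro m
    have h1 : DifferentiableOn ℂ (fun w => (U.evalEval (t w).1 (t w).2)⁻¹ *
        (MvPolynomial.coeff m P).evalEval (t w).1 (t w).2) (LH c1) := by
      apply DifferentiableOn.mul
      · exact (diff_evalEval U hE.1.2.1 hE.1.2.2.1).inv fun w hw => hU0 w hw
      · exact diff_evalEval _ hE.1.2.1 hE.1.2.2.1
    refine h1.congr fun w hw => ?_
    show MvPolynomial.coeff m (q w) = _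
    rw [hqe w hw, MvPolynomial.coeff_C_mul, coeff_spec]
  have a2 : ∀ w, (q w).totalDegree ≤ d := by
    intro w
    by_cases hw : w.re < c1
    · rw [hqe w hw]
      refine (MvPolynomial.totalDegree_mul _ _).trans ?_
      rw [MvPolynomial.totalDegree_C, zero_add]
      exact hle (t w) (hmem w hw)
    · have : q w = 0 := by simp only [hq, if_neg hw]
      rw [this, MvPolynomial.totalDegree_zero]
      exact Nat.zero_le _
  have a3 : ∀ L : MvPolynomial (Fin n) ℂ →ₗ[ℂ] ℂ, (∀ w ∈ LH c1, L (q w) = 0) ∨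
      ∃ (o : ℤ) (γ : ℂ) (C1 c2 : ℝ), γ ≠ 0 ∧
        ∀ w ∈ LH c2, ‖L (q w) - γ * Complex.exp (o * w)‖ ≤ C1 * Real.exp ((o + 1) * w.re) := by
    intro L
    set AA : ℂ[X][X] := ∑ m ∈ P.support, C (C (L (MvPolynomial.monomial m 1))) *
      MvPolynomial.coeff m P with hAA
    have hval : ∀ w : ℂ, w.re < c1 → L (q w) =
        AA.evalEval (t w).1 (t w).2 / U.evalEval (t w).1 (t w).2 := by
      intro w hw
      rw [hqe w hw, ← MvPolynomial.smul_eq_C_mul, map_smul, functional_spec, smul_eq_mul,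
        div_eq_mul_inv, mul_comm]
    have hreg : Reg (TT F h) (fun p => AA.evalEval p.1 p.2 / U.evalEval p.1 p.2) :=
      ⟨AA, U, fun p hp => ⟨hu p hp, rfl⟩⟩
    rcases hE.1.2.2.2 _ hreg with h0 | ⟨l, G, c2, hG, hG0, hc2, hl⟩
    · left
      intro w hw
      rw [hval w hw]
      exact h0 w hw
    · right
      obtain ⟨C1, c3, hb⟩ := analytic_bound hG
      refine ⟨l, G 0, C1, min c2 c3, hG0, ?_⟩
      intro w hw
      have hw2 : w.re < c2 := lt_of_lt_of_le hw (min_le_left _ _)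
      have hw3 : w.re < c3 := lt_of_lt_of_le hw (min_le_right _ _)
      rw [hval w (lt_of_lt_of_le hw2 hc2)]
      have h1 := hl w hw2
      rw [h1]
      have h2 : Complex.exp (l * w) * G (Complex.exp w) - G 0 * Complex.exp (l * w) =
          Complex.exp (l * w) * (G (Complex.exp w) - G 0) := by ring
      rw [h2, norm_mul, Complex.norm_exp]
      have h3 : ((l : ℂ) * w).re = (l : ℝ) * w.re := by simp
      rw [h3, add_mul, one_mul, Real.exp_add]
      calc Real.exp ((l : ℝ) * w.re) * ‖G (Complex.exp w) - G 0‖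
          ≤ Real.exp ((l : ℝ) * w.re) * (C1 * Real.exp w.re) :=
            mul_le_mul_of_nonneg_left (hb w hw3) (Real.exp_pos _).le
        _ = _ := by ring
  have a4 : ∀ w ∈ LH c1, MvPolynomial.eval (fun i => (κ0 i : ℂ))
      (MvPolynomial.homogeneousComponent d (q w)) = 1 := by
    intro w hw
    rw [hqe w hw, MvPolynomial.homogeneousComponent_C_mul, map_mul, MvPolynomial.eval_C,
      ← evalEval_lead]
    exact inv_mul_cancel₀ (hU0 w hw)
  have a5 : ∃ m, ∀ B c2 : ℝ, ∃ w ∈ LH c1, w ∈ LH c2 ∧ B < ‖MvPolynomial.coeff m (q w)‖ := by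
    refine ⟨m, fun B c2 => ?_⟩
    by_contra hcon
    push Not at hcon
    apply hunb
    refine ⟨B, min c1 c2, fun w hw => ?_⟩
    have hw1 : w.re < c1 := lt_of_lt_of_le hw (min_le_left _ _)
    have hw2 : w.re < c2 := lt_of_lt_of_le hw (min_le_right _ _)
    have h1 := hcon w hw1 hw2
    rw [hqe w hw1, MvPolynomial.coeff_C_mul, coeff_spec] at h1
    rw [div_eq_mul_inv, mul_comm]
    exact h1
  obtain ⟨w, hw, N, hN⟩ := hpole n d κ0 (fun i => (a i : ℝ)) b hh c1 C0 q hE.2.1 hE.2.2.1 a1 a2 a3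
    a4 a5
  have h2 := exp_shift (hE.2.2.2 w hw) N
  refine ⟨t w, hmem w hw, pt (fun i => (a i : ℝ)) b hh w N, ?_, ?_⟩
  · intro i
    rw [← h2 i]
    unfold pt
    push_cast
    rfl
  · rw [hqe w hw, map_mul, MvPolynomial.eval_C] at hN
    exact (mul_eq_zero.1 hN).resolve_left (inv_ne_zero (hU0 w hw))

/-- the general case over a good cover -/
theorem gen_case (hA : S_A) (hstar : S_star) (hr2i : S_r2i) (hirr : S_irr) (hcross : S_cross)
    (hpos : S_pos) (hval : S_val) (harc : S_arc) (hlead : S_lead) (hres : S_res) (hloc : S_loc)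
    (hpole : S_pole) (hend : S_end) (hbdd : S_bdd)
    {n : ℕ} {F : ℂ[X][X]} {h : ℂ[X]} (hC : Cov F h)
    {R : Fin n → ℂ × ℂ → ℂ} (hI : Indep (TT F h) R) (P : MvPolynomial (Fin n) ℂ[X][X]) (d : ℕ)
    (hd : 1 ≤ d)
    (hle : ∀ p ∈ TT F h, (spec P p.1 p.2).totalDegree ≤ d) (κ0 : Fin n → ℤ)
    (hκ : ¬ F ∣ lead P d κ0)
    (hadd : ∀ m : Fin n → ℤ, m ≠ 0 → ∀ c : ℂ, ∃ x : Fin n → ℂ, ∑ i, (m i : ℂ) * x i = c ∧
      ∃ p ∈ TT F h, MvPolynomial.eval x (spec P p.1 p.2) ≠ 0) :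
    ∃ p ∈ TT F h, ∃ x : Fin n → ℂ, (∀ i, Complex.exp (x i) = R i p) ∧
      MvPolynomial.eval x (spec P p.1 p.2) = 0 := by
  classical
  by_cases hu : ∃ p0 ∈ TT F h, (lead P d κ0).evalEval p0.1 p0.2 = 0
  · obtain ⟨p0, hp0, hu⟩ := hu
    exact case_lead hlead hres hloc hC hI P d hle κ0 hκ p0 hp0 hu
  push Not at hu
  set U := lead P d κ0 with hU
  have hreg : ∀ m, Reg (TT F h) (fun p => (MvPolynomial.coeff m P).evalEval p.1 p.2 /
      U.evalEval p.1 p.2) := fun m => ⟨_, U, fun p hp => ⟨hu p hp, rfl⟩⟩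
  by_cases hc : ∀ m, ∃ c : ℂ, ∀ p ∈ TT F h, (MvPolynomial.coeff m P).evalEval p.1 p.2 /
      U.evalEval p.1 p.2 = c
  · choose c hc using hc
    set Q : MvPolynomial (Fin n) ℂ := ∑ m ∈ P.support, MvPolynomial.monomial m (c m) with hQ
    have hspec : ∀ p ∈ TT F h, spec P p.1 p.2 = MvPolynomial.C (U.evalEval p.1 p.2) * Q := by
      intro p hp
      ext k
      rw [coeff_spec, MvPolynomial.coeff_C_mul, hQ, MvPolynomial.coeff_sum]
      simp only [MvPolynomial.coeff_monomial]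
      rw [Finset.sum_ite_eq' P.support k]
      split_ifs with hk
      · rw [← hc k p hp, mul_div_cancel₀ _ (hu p hp)]
      · rw [MvPolynomial.notMem_support_iff.1 hk, evalEval_zero, mul_zero]
    obtain ⟨z, hz⟩ := exists_eval_ne_zero hC.hne
    obtain ⟨v, hv⟩ := exists_pt hC z hz
    have hQd : 1 ≤ Q.totalDegree := by
      by_contra hlt
      have h1 : MvPolynomial.homogeneousComponent d Q = 0 :=
        MvPolynomial.homogeneousComponent_eq_zero _ _ (by omega)
      apply hu (z, v) hv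
      rw [hU, evalEval_lead, hspec (z, v) hv, MvPolynomial.homogeneousComponent_C_mul, h1]
      simp
    obtain ⟨p, hp, x, hx1, hx2⟩ := product_case hA hstar hr2i hirr hcross hpos hval harc hC hI Q hQd
      (by
        intro m hm s
        obtain ⟨x, hx, p, hp, hne⟩ := hadd m hm s
        refine ⟨x, hx, fun h0 => hne ?_⟩
        rw [hspec p hp, map_mul, h0, mul_zero])
    refine ⟨p, hp, x, hx1, ?_⟩
    rw [hspec p hp, map_mul, hx2, mul_zero]
  · push Not at hc
    obtain ⟨m, hm⟩ := hc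
    obtain ⟨K, t, c0, ht, hb⟩ := hbdd F h hC
    by_cases hall : ∀ k, ∃ B c1 : ℝ, ∀ w : ℂ, w.re < c1 →
        ‖(MvPolynomial.coeff m P).evalEval (t k w).1 (t k w).2 /
          U.evalEval (t k w).1 (t k w).2‖ ≤ B
    · exfalso
      obtain ⟨c, hc⟩ := hb _ (hreg m) hall
      obtain ⟨p, hp, hne⟩ := hm c
      exact hne (hc p hp)
    · push Not at hall
      obtain ⟨k, hk⟩ := hall
      refine case_pole hpole hend hC hI P d hle κ0 hu (t k) c0 (ht k) m ?_
      rintro ⟨B, c1, hB⟩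
      obtain ⟨w, hw, hlt⟩ := hk B c1
      exact absurd (hB w hw) (not_le.2 hlt)

end Pool.Agent.W996.EC
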