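import Pool.Agent.W996.EC.Prep

/-! EC project: the explicit form of the main theorem and its form for varieties. -/

set_option autoImplicit false

namespace Pool.Agent.W996.EC

open Polynomial

/-- explicit form: the curve `F(z,v) = 0`, rational functions `A i / B i` on it, multiplicatively
independent modulo constants, and a polynomial `P` in `x` with coefficients in `ℂ[z][v]`, not
vanishing identically on `{m.x = c}` for any integer `m ≠ 0`; `H` is an arbitrary polynomial not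
vanishing identically on the curve, used to produce infinitely many solutions -/
def S_main : Prop := ∀ (n : ℕ) (F H : ℂ[X][X]) (A B : Fin n → ℂ[X][X])
  (P : MvPolynomial (Fin n) ℂ[X][X]), Irreducible F → 1 ≤ F.natDegree → ¬ F ∣ H →
  (∀ i, ¬ F ∣ A i) → (∀ i, ¬ F ∣ B i) →
  (∀ m : Fin n → ℤ, m ≠ 0 → ∀ c : ℂ, ∃ z v : ℂ, F.evalEval z v = 0 ∧
    (∀ i, (A i).evalEval z v ≠ 0 ∧ (B i).evalEval z v ≠ 0) ∧
    ∏ i, ((A i).evalEval z v / (B i).evalEval z v) ^ m i ≠ c) →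
  (∀ m : Fin n → ℤ, m ≠ 0 → ∀ c : ℂ, ∃ (z v : ℂ) (x : Fin n → ℂ), F.evalEval z v = 0 ∧
    ∑ i, (m i : ℂ) * x i = c ∧ MvPolynomial.eval x (spec P z v) ≠ 0) →
  (∃ z v : ℂ, F.evalEval z v = 0 ∧ 1 ≤ (spec P z v).totalDegree) →
  ∃ (z v : ℂ) (x : Fin n → ℂ), F.evalEval z v = 0 ∧ H.evalEval z v ≠ 0 ∧
    (∀ i, (A i).evalEval z v ≠ 0 ∧ (B i).evalEval z v ≠ 0) ∧
    (∀ i, Complex.exp (x i) = (A i).evalEval z v / (B i).evalEval z v) ∧
    MvPolynomial.eval x (spec P z v) = 0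

/-- the kernel of evaluation at a tuple of transcendence degree `n - 1` is principal -/
def S_kern : Prop := ∀ (K L : Type) [Field K] [Field L] [Algebra K L] (n : ℕ) (x : Fin n → L),
  ¬ AlgebraicIndependent K x →
  (∃ J : Finset (Fin n), n ≤ J.card + 1 ∧ AlgebraicIndependent K (fun j : J => x j)) →
  ∃ G : MvPolynomial (Fin n) K, Irreducible G ∧ ∀ f, MvPolynomial.aeval x f = 0 ↔ G ∣ f

/-- plane model of a function field of one variable -/
def S_plane : Prop := ∀ (L : Type) [Field L] [Algebra ℂ L] (n : ℕ) (y : Fin n → L),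
  (∃ i, Transcendental ℂ (y i)) →
  (∀ i j, ∃ f : MvPolynomial (Fin 2) ℂ, f ≠ 0 ∧ MvPolynomial.aeval ![y i, y j] f = 0) →
  ∃ (F : ℂ[X][X]) (z0 v0 : L), Irreducible F ∧ 1 ≤ F.natDegree ∧
    (∀ G : ℂ[X][X], aevalAeval z0 v0 G = 0 ↔ F ∣ G) ∧
    z0 ∈ IntermediateField.adjoin ℂ (Set.range y) ∧
    v0 ∈ IntermediateField.adjoin ℂ (Set.range y) ∧
    ∀ u ∈ IntermediateField.adjoin ℂ (Set.range y), ∃ A B : ℂ[X][X],
      aevalAeval z0 v0 B ≠ 0 ∧ u * aevalAeval z0 v0 B = aevalAeval z0 v0 A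

/-- Exponential-algebraic closedness for all free varieties `V` of dimension at least `n` in
`ℂ^n × (ℂ^*)^n` whose projection to `(ℂ^*)^n` has dimension at most one. -/
def S_V : Prop := ∀ (n : ℕ) (P : Ideal (MvPolynomial (Fin n ⊕ Fin n) ℂ))
  (V : Set (Fin n ⊕ Fin n → ℂ)), P.IsPrime →
  V = {p | (∀ f ∈ P, MvPolynomial.eval p f = 0) ∧ ∀ j : Fin n, p (Sum.inr j) ≠ 0} →
  -- additively free
  (∀ m : Fin n → ℤ, m ≠ 0 → ∀ c : ℂ, ∃ p ∈ V, (∑ j : Fin n, (m j : ℂ) * p (Sum.inl j)) ≠ c) →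
  -- multiplicatively free
  (∀ m : Fin n → ℤ, m ≠ 0 → ∀ c : ℂ, ∃ p ∈ V, (∏ j : Fin n, p (Sum.inr j) ^ (m j)) ≠ c) →
  -- `dim V ≥ n` (this is rotundity for the identity matrix)
  (∃ J : Finset (Fin n ⊕ Fin n), n ≤ J.card ∧
    ∀ f : MvPolynomial (Fin n ⊕ Fin n) ℂ, f.vars ⊆ J →
      (∀ p ∈ V, MvPolynomial.eval p f = 0) → f = 0) →
  -- the projection to `(ℂ^*)^n` has dimension at most one
  (∀ i j : Fin n, ∃ f : MvPolynomial (Fin 2) ℂ, f ≠ 0 ∧
    ∀ p ∈ V, MvPolynomial.eval ![p (Sum.inr i), p (Sum.inr j)] f = 0) →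
  -- for every `H` not vanishing identically on the projection
  ∀ H : MvPolynomial (Fin n) ℂ, (∃ p ∈ V, MvPolynomial.eval (fun j => p (Sum.inr j)) H ≠ 0) →
  ∃ z : Fin n → ℂ,
    (∀ f ∈ P, MvPolynomial.eval (Sum.elim z (fun i : Fin n => Complex.exp (z i))) f = 0) ∧
    MvPolynomial.eval (fun i : Fin n => Complex.exp (z i)) H ≠ 0

end Pool.Agent.W996.EC
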