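import Pool.Agent.W996.EC.Gen2
import Pool.Agent.W996.EC.VStm
import Pool.Agent.W996.EC.QStm

/-! EC project: the explicit main theorem from the parts. -/

set_option autoImplicit false

namespace Pool.Agent.W996.EC

open Filter Topology Polynomial

theorem ratio_zpow (a b : ℂ) (ha : a ≠ 0) (hb : b ≠ 0) (m : ℤ) :
    (a / b) ^ m = (a ^ m.toNat * b ^ (-m).toNat) / (b ^ m.toNat * a ^ (-m).toNat) := by
  rcases le_total 0 m with h | h
  · obtain ⟨k, rfl⟩ := Int.eq_ofNat_of_zero_le h
    simp [div_pow]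
  · obtain ⟨k, hk⟩ := Int.eq_ofNat_of_zero_le (neg_nonneg.2 h)
    obtain rfl : m = -(k : ℤ) := by omega
    simp [div_pow]

theorem exists_kappa_aux {n : ℕ} {D : Type*} [CommRing D] [IsDomain D] [CharZero D]
    (q : ℂ[X][X] →+* D) (P : MvPolynomial (Fin n) ℂ[X][X]) (d : ℕ) (m : Fin n →₀ ℕ)
    (hm : m.degree = d) (hc : q (MvPolynomial.coeff m P) ≠ 0) :
    ∃ κ0 : Fin n → ℤ, q (lead P d κ0) ≠ 0 := by
  classical
  set Q := MvPolynomial.map q (MvPolynomial.homogeneousComponent d P) with hQ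
  have hQ0 : Q ≠ 0 := by
    intro h0
    apply hc
    have h1 : MvPolynomial.coeff m Q = q (MvPolynomial.coeff m P) := by
      rw [hQ, MvPolynomial.coeff_map, MvPolynomial.coeff_homogeneousComponent, if_pos hm]
    rw [← h1, h0, MvPolynomial.coeff_zero]
  have hinf : ∀ _ : Fin n, (Set.range (Int.cast : ℤ → D)).Infinite := fun _ =>
    Set.infinite_range_of_injective Int.cast_injective
  have h2 : ¬ ∀ x ∈ Set.pi Set.univ (fun _ : Fin n => Set.range (Int.cast : ℤ → D)),
      MvPolynomial.eval x Q = MvPolynomial.eval x 0 := fun h =>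
    hQ0 (MvPolynomial.funext_set _ hinf h)
  push Not at h2
  obtain ⟨x, hx, hne⟩ := h2
  have h3 : ∀ i, ∃ k : ℤ, (k : D) = x i := fun i => hx i (Set.mem_univ i)
  choose κ0 hκ0 using h3
  refine ⟨κ0, fun hdvd => hne ?_⟩
  rw [map_zero, ← hdvd, hQ]
  unfold lead atx
  rw [← MvPolynomial.eval₂_eq_eval_map]
  have h4 : q (MvPolynomial.eval (fun i => C (C ((κ0 i : ℤ) : ℂ)))
      (MvPolynomial.homogeneousComponent d P)) =
      q (MvPolynomial.eval₂ (RingHom.id _) (fun i => C (C ((κ0 i : ℤ) : ℂ)))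
      (MvPolynomial.homogeneousComponent d P)) := rfl
  rw [h4, MvPolynomial.eval₂_comp_left, RingHom.comp_id]
  congr 1
  funext i
  simp only [Function.comp_apply]
  rw [← hκ0 i]
  simp

theorem exists_kappa {n : ℕ} {F : ℂ[X][X]} (hF : Irreducible F)
    (P : MvPolynomial (Fin n) ℂ[X][X]) (d : ℕ) (m : Fin n →₀ ℕ) (hm : m.degree = d)
    (hc : ¬ F ∣ MvPolynomial.coeff m P) : ∃ κ0 : Fin n → ℤ, ¬ F ∣ lead P d κ0 := by
  have hprime : Prime F := hF.prime
  have hI : (Ideal.span {F}).IsPrime := (Ideal.span_singleton_prime hF.ne_zero).2 hprime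
  have hq : ∀ G, Ideal.Quotient.mk (Ideal.span {F}) G = 0 ↔ F ∣ G := fun G => by
    rw [Ideal.Quotient.eq_zero_iff_mem, Ideal.mem_span_singleton]
  have hdom : IsDomain (ℂ[X][X] ⧸ Ideal.span {F}) := Ideal.Quotient.isDomain _
  have hchar : CharZero (ℂ[X][X] ⧸ Ideal.span {F}) :=
    charZero_of_injective_algebraMap (algebraMap ℂ (ℂ[X][X] ⧸ Ideal.span {F})).injective
  have h1 : Ideal.Quotient.mk (Ideal.span {F}) (MvPolynomial.coeff m P) ≠ 0 :=
    fun h0 => hc ((hq _).1 h0)
  obtain ⟨κ0, h⟩ := exists_kappa_aux (D := ℂ[X][X] ⧸ Ideal.span {F})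
    (Ideal.Quotient.mk (Ideal.span {F})) P d m hm h1
  exact ⟨κ0, fun h0 => h ((hq _).2 h0)⟩

/-- the general case over a good cover, without reference to the degree -/
theorem gen_case' (hA : S_A) (hstar : S_star) (hr2i : S_r2i) (hirr : S_irr) (hcross : S_cross)
    (hpos : S_pos) (hval : S_val) (harc : S_arc) (hlead : S_lead) (hres : S_res)
    (hloc : S_loc) (hpole : S_pole) (hend : S_end) (hbdd : S_bdd) : S_gen := by
  classical
  intro n F h R hC hI P hdeg hadd
  -- the degree
  set S := P.support.filter (fun m => ¬ F ∣ MvPolynomial.coeff m P) with hS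
  set d := S.sup (fun m => m.degree) with hdd
  have hmemS : ∀ m, ¬ F ∣ MvPolynomial.coeff m P → m ∈ S := by
    intro m hm
    rw [hS, Finset.mem_filter, MvPolynomial.mem_support_iff]
    refine ⟨fun h0 => hm (by rw [h0]; exact dvd_zero _), hm⟩
  have hdegle : ∀ z v, F.evalEval z v = 0 → ∀ m, MvPolynomial.coeff m (spec P z v) ≠ 0 →
      m ∈ S := by
    intro z v hzv m hm
    apply hmemS
    intro hdv
    apply hm
    rw [coeff_spec]
    exact dvd_vanish hdv hzv
  obtain ⟨p1, hp1, hdeg1⟩ := hdeg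
  have hd1 : 1 ≤ d := by
    by_contra hlt
    have h0 : (spec P p1.1 p1.2).totalDegree = 0 := by
      rw [MvPolynomial.totalDegree_eq_zero_iff]
      intro m hm i
      have h1 := hdegle p1.1 p1.2 hp1.1 m (MvPolynomial.mem_support_iff.1 hm)
      have h2 : m.degree ≤ d := Finset.le_sup (f := fun m : Fin n →₀ ℕ => m.degree) h1
      have h3 : m.degree = 0 := by omega
      have h4 : m = 0 := by
        rwa [Finsupp.degree_eq_zero_iff] at h3
      rw [h4]
      rfl
    omega
  have hSne : S.Nonempty := by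
    by_contra he
    rw [Finset.not_nonempty_iff_eq_empty] at he
    rw [hdd, he] at hd1
    simp at hd1
  obtain ⟨m0, hm0, hm0d⟩ := Finset.exists_mem_eq_sup S hSne (fun m => m.degree)
  obtain ⟨κ0, hκ⟩ := exists_kappa hC.irr P d m0 (by rw [hdd]; exact hm0d.symm)
    (Finset.mem_filter.1 hm0).2
  have hle : ∀ z v, F.evalEval z v = 0 → (spec P z v).totalDegree ≤ d := by
    intro z v hzv
    rw [MvPolynomial.totalDegree]
    apply Finset.sup_le
    intro m hm
    have h1 := hdegle z v hzv m (MvPolynomial.mem_support_iff.1 hm)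
    have h2 : m.degree ≤ d := Finset.le_sup (f := fun m : Fin n →₀ ℕ => m.degree) h1
    rw [Finsupp.degree_eq_sum] at h2
    rw [Finsupp.sum_fintype _ _ (fun _ => rfl)]
    exact h2
  exact gen_case hA hstar hr2i hirr hcross hpos hval harc hlead hres hloc
    hpole hend hbdd hC hI P d hd1 (fun p hp => hle _ _ hp.1) κ0 hκ hadd

theorem main_thm (hA : S_A) (hstar : S_star) (hr2i : S_r2i) (hirr : S_irr) (hcross : S_cross)
    (hpos : S_pos) (hval : S_val) (harc : S_arc) (hlead : S_lead) (hres : S_res) (hcov : S_cov)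
    (hloc : S_loc) (hpole : S_pole) (hend : S_end) (hbdd : S_bdd) : S_main := by
  have hgen : S_gen := gen_case' hA hstar hr2i hirr hcross hpos hval harc hlead hres hloc hpole
    hend hbdd
  classical
  intro n F H A B P hF hd hH hAi hBi hmul hadd hdeg
  -- the good polynomial
  obtain ⟨ρH, hρH, hzH⟩ := finite_zeros hres hF hd hH
  choose ρA hρA hzA using fun i => finite_zeros hres hF hd (hAi i)
  choose ρB hρB hzB using fun i => finite_zeros hres hF hd (hBi i)
  obtain ⟨h, hdvd, hC⟩ := hcov F (ρH * ((∏ i, ρA i) * ∏ i, ρB i)) hF hd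
    (mul_ne_zero hρH (mul_ne_zero (Finset.prod_ne_zero_iff.2 fun i _ => hρA i)
      (Finset.prod_ne_zero_iff.2 fun i _ => hρB i)))
  have hh0 : ∀ z, h.eval z ≠ 0 → (ρH * ((∏ i, ρA i) * ∏ i, ρB i)).eval z ≠ 0 := by
    intro z hz h0
    obtain ⟨k, rfl⟩ := hdvd
    rw [eval_mul, h0, zero_mul] at hz
    exact hz rfl
  have hne : ∀ p ∈ TT F h, H.evalEval p.1 p.2 ≠ 0 ∧ (∀ i, (A i).evalEval p.1 p.2 ≠ 0) ∧
      ∀ i, (B i).evalEval p.1 p.2 ≠ 0 := by
    rintro p ⟨hp1, hp2⟩
    have h1 := hh0 p.1 hp2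
    rw [eval_mul, eval_mul, eval_prod, eval_prod] at h1
    have h2 := left_ne_zero_of_mul h1
    have h3 := left_ne_zero_of_mul (right_ne_zero_of_mul h1)
    have h4 := right_ne_zero_of_mul (right_ne_zero_of_mul h1)
    rw [Finset.prod_ne_zero_iff] at h3 h4
    exact ⟨fun h5 => h2 (hzH _ _ hp1 h5), fun i h5 => h3 i (Finset.mem_univ i) (hzA i _ _ hp1 h5),
      fun i h5 => h4 i (Finset.mem_univ i) (hzB i _ _ hp1 h5)⟩
  -- independence
  set R : Fin n → ℂ × ℂ → ℂ := fun i p => (A i).evalEval p.1 p.2 / (B i).evalEval p.1 p.2 with hR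
  have hI : Indep (TT F h) R := by
    refine ⟨fun i => ⟨A i, B i, fun p hp => ⟨(hne p hp).2.2 i, rfl⟩⟩,
      fun i p hp => div_ne_zero ((hne p hp).2.1 i) ((hne p hp).2.2 i), ?_⟩
    rintro m hm ⟨c, hc⟩
    obtain ⟨z, v, hzv, hAB, hprod⟩ := hmul m hm c
    set Nu : ℂ[X][X] := ∏ i, (A i ^ (m i).toNat * B i ^ (-m i).toNat) with hNu
    set De : ℂ[X][X] := ∏ i, (B i ^ (m i).toNat * A i ^ (-m i).toNat) with hDe
    have hquot : ∀ z v : ℂ, (∀ i, (A i).evalEval z v ≠ 0) → (∀ i, (B i).evalEval z v ≠ 0) →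
        De.evalEval z v ≠ 0 ∧ ∏ i, ((A i).evalEval z v / (B i).evalEval z v) ^ m i =
          Nu.evalEval z v / De.evalEval z v := by
      intro z v h1 h2
      rw [hNu, hDe, evalEval_prod, evalEval_prod]
      simp only [evalEval_mul, evalEval_pow]
      constructor
      · rw [Finset.prod_ne_zero_iff]
        intro i _
        exact mul_ne_zero (pow_ne_zero _ (h2 i)) (pow_ne_zero _ (h1 i))
      · rw [← Finset.prod_div_distrib]
        exact Finset.prod_congr rfl fun i _ => ratio_zpow _ _ (h1 i) (h2 i) _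
    have hdv : F ∣ Nu - C (C c) * De := by
      apply vanish_dvd hres hC
      intro p hp
      have h1 := hquot p.1 p.2 (hne p hp).2.1 (hne p hp).2.2
      have h2 := hc p hp
      simp only [hR] at h2
      rw [h1.2, div_eq_iff h1.1] at h2
      rw [evalEval_sub, evalEval_mul, evalEval_C, eval_C, h2, sub_self]
    have h3 := dvd_vanish hdv hzv
    rw [evalEval_sub, evalEval_mul, evalEval_C, eval_C, sub_eq_zero] at h3
    have h4 := hquot z v (fun i => (hAB i).1) (fun i => (hAB i).2)
    apply hprod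
    rw [h4.2, div_eq_iff h4.1, h3]
  obtain ⟨p, hp, x, hx1, hx2⟩ := hgen n F h R hC hI P (by
      by_contra hcon
      push Not at hcon
      obtain ⟨z1, v1, hzv1, hdeg1⟩ := hdeg
      have h0 : (spec P z1 v1).totalDegree = 0 := by
        rw [MvPolynomial.totalDegree_eq_zero_iff]
        intro m hm i
        by_contra hmi
        have h1 : F ∣ MvPolynomial.coeff m P := by
          apply vanish_dvd hres hC
          intro p hp
          rw [← coeff_spec]
          by_contra h2
          have h3 := hcon p hp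
          have h4 := MvPolynomial.le_totalDegree (MvPolynomial.mem_support_iff.2 h2)
          have h5 : m = 0 := by
            have h6 : m.degree = 0 := by
              rw [Finsupp.degree_eq_sum]
              rw [Finsupp.sum_fintype _ _ (fun _ => rfl)] at h4
              omega
            rwa [Finsupp.degree_eq_zero_iff] at h6
          rw [h5] at hmi
          exact hmi rfl
        have h7 := dvd_vanish h1 hzv1
        rw [← coeff_spec] at h7
        exact (MvPolynomial.mem_support_iff.1 hm) h7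
      omega) (by
      intro m hm c
      obtain ⟨z, v, x, hzv, hx, hne0⟩ := hadd m hm c
      refine ⟨x, hx, ?_⟩
      by_contra hcon
      push Not at hcon
      apply hne0
      rw [← evalEval_atx]
      apply dvd_vanish _ hzv
      apply vanish_dvd hres hC
      intro p hp
      rw [evalEval_atx]
      exact hcon p hp)
  exact ⟨p.1, p.2, x, hp.1, (hne p hp).1, fun i => ⟨(hne p hp).2.1 i, (hne p hp).2.2 i⟩, hx1, hx2⟩

end Pool.Agent.W996.EC
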