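import Pool.Agent.W996.EC.Stm
import Pool.Agent.W996.EC.Cv

/-! EC project: preparations for the assembly. -/

set_option autoImplicit false

namespace Pool.Agent.W996.EC

open Filter Topology Polynomial

theorem evalEval_map (F : ℂ[X][X]) (z v : ℂ) :
    F.evalEval z v = (F.map (evalRingHom z)).eval v := by
  rw [Polynomial.map_evalRingHom_eval]

theorem exists_pt {F : ℂ[X][X]} {h : ℂ[X]} (hC : Cov F h) (z : ℂ) (hz : h.eval z ≠ 0) :
    ∃ v, (z, v) ∈ TT F h := by
  have h1 := (hC.good z hz).1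
  have h2 : (F.map (evalRingHom z)).degree ≠ 0 := by
    intro h3
    have h4 : (F.map (evalRingHom z)).natDegree = 0 :=
      natDegree_eq_zero_iff_degree_le_zero.2 h3.le
    have h5 := hC.deg
    omega
  obtain ⟨v, hv⟩ := IsAlgClosed.exists_root (F.map (evalRingHom z)) h2
  refine ⟨v, ?_, hz⟩
  show F.evalEval z v = 0
  rw [evalEval_map]
  exact hv

theorem dvd_vanish {F G : ℂ[X][X]} (hd : F ∣ G) {z v : ℂ} (h : F.evalEval z v = 0) :
    G.evalEval z v = 0 := by
  obtain ⟨K, rfl⟩ := hd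
  rw [evalEval_mul, h, zero_mul]

theorem finite_zeros (h1 : S_res) {F G : ℂ[X][X]} (hF : Irreducible F) (hd : 1 ≤ F.natDegree)
    (hG : ¬ F ∣ G) : ∃ ρ : ℂ[X], ρ ≠ 0 ∧ ∀ z v, F.evalEval z v = 0 → G.evalEval z v = 0 →
      ρ.eval z = 0 := by
  obtain ⟨a, b, ρ, hρ, h2⟩ := h1 F G hF hd hG
  refine ⟨ρ, hρ, fun z v hz hv => ?_⟩
  have h3 := congrArg (fun q : ℂ[X][X] => q.evalEval z v) h2
  simp only [evalEval_add, evalEval_mul, hz, hv, mul_zero, add_zero, evalEval_C] at h3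
  exact h3.symm

theorem exists_eval_ne_zero {h : ℂ[X]} (hh : h ≠ 0) : ∃ z, h.eval z ≠ 0 := by
  by_contra hc
  push Not at hc
  exact hh (Polynomial.funext fun z => by rw [hc z, eval_zero])

theorem vanish_dvd (h1 : S_res) {F : ℂ[X][X]} {h : ℂ[X]} (hC : Cov F h) {G : ℂ[X][X]}
    (hG : ∀ p ∈ TT F h, G.evalEval p.1 p.2 = 0) : F ∣ G := by
  by_contra hc
  obtain ⟨ρ, hρ, h2⟩ := finite_zeros h1 hC.irr hC.deg hc
  obtain ⟨z, hz⟩ := exists_eval_ne_zero (mul_ne_zero hC.hne hρ)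
  rw [eval_mul] at hz
  obtain ⟨v, hv⟩ := exists_pt hC z (left_ne_zero_of_mul hz)
  exact right_ne_zero_of_mul hz (h2 z v hv.1 (hG _ hv))

/-- specialisation of a polynomial with coefficients in `ℂ[z][v]` -/
noncomputable def spec {n : ℕ} (P : MvPolynomial (Fin n) ℂ[X][X]) (z v : ℂ) :
    MvPolynomial (Fin n) ℂ :=
  MvPolynomial.map (evalEvalRingHom z v) P

theorem coeff_spec {n : ℕ} (P : MvPolynomial (Fin n) ℂ[X][X]) (z v : ℂ) (m : Fin n →₀ ℕ) :
    MvPolynomial.coeff m (spec P z v) = (MvPolynomial.coeff m P).evalEval z v := by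
  unfold spec
  rw [MvPolynomial.coeff_map]
  rfl

/-- the value of `P` at `x`, as a polynomial in `z, v` -/
noncomputable def atx {n : ℕ} (P : MvPolynomial (Fin n) ℂ[X][X]) (x : Fin n → ℂ) : ℂ[X][X] :=
  MvPolynomial.eval (fun i => C (C (x i))) P

theorem evalEval_atx {n : ℕ} (P : MvPolynomial (Fin n) ℂ[X][X]) (x : Fin n → ℂ) (z v : ℂ) :
    (atx P x).evalEval z v = MvPolynomial.eval x (spec P z v) := by
  unfold atx spec
  have h1 : (MvPolynomial.eval (fun i => C (C (x i))) P).evalEval z v =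
      evalEvalRingHom z v (MvPolynomial.eval (fun i => C (C (x i))) P) := rfl
  rw [h1, ← MvPolynomial.eval₂_eq_eval_map]
  show evalEvalRingHom z v (MvPolynomial.eval₂ (RingHom.id _) _ P) = _
  rw [MvPolynomial.eval₂_comp_left, RingHom.comp_id]
  congr 1
  funext i
  simp

end Pool.Agent.W996.EC
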