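import Pool.Agent.W996.EC.Prep

/-! EC project: assembly of the product case. -/

set_option autoImplicit false

namespace Pool.Agent.W996.EC

open Filter Topology

theorem exp_shift {n : ℕ} {R : Fin n → ℂ} {x : Fin n → ℂ} (hx : ∀ i, Complex.exp (x i) = R i)
    (M : Fin n → ℤ) : ∀ i, Complex.exp (x i + 2 * Real.pi * Complex.I * (M i : ℂ)) = R i := by
  intro i
  rw [Complex.exp_add, hx i]
  have : (2 * Real.pi * Complex.I * (M i : ℂ) : ℂ) = (M i : ℂ) * (2 * Real.pi * Complex.I) := by
    ring
  rw [this, Complex.exp_int_mul_two_pi_mul_I, mul_one]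

/-- the cases of Theorem A, with the conclusion on `E` -/
theorem product_case (hA : S_A) (hstar : S_star) (hr2i : S_r2i) (hirr : S_irr) (hcross : S_cross)
    (hpos : S_pos) (hval : S_val) (harc : S_arc)
    {n : ℕ} {F : Polynomial (Polynomial ℂ)} {h : Polynomial ℂ} (hC : Cov F h)
    {R : Fin n → ℂ × ℂ → ℂ} (hI : Indep (TT F h) R) (P : MvPolynomial (Fin n) ℂ)
    (hP : 1 ≤ P.totalDegree)
    (hadd : ∀ m : Fin n → ℤ, m ≠ 0 → ∀ c : ℂ, ∃ x : Fin n → ℂ, ∑ i, (m i : ℂ) * x i = c ∧
      MvPolynomial.eval x P ≠ 0) :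
    ∃ p ∈ TT F h, ∃ x : Fin n → ℂ, (∀ i, Complex.exp (x i) = R i p) ∧
      MvPolynomial.eval x P = 0 := by
  by_contra hno
  push Not at hno
  -- the set of end vectors
  set A : Set (Fin n → ℝ) := {a | ∃ (t : ℂ → ℂ × ℂ) (c0 : ℝ) (a' : Fin n → ℤ) (b : Fin n → ℂ)
    (hh : ℂ → Fin n → ℂ) (C0 : ℝ), IsEnd (TT F h) R t c0 a' b hh C0 ∧ a = fun i => (a' i : ℝ)}
    with hAdef
  have hyp : Hyp A P := by
    constructor
    · intro l hl
      obtain ⟨t, c0, a, b, hh, C0, he, hlt⟩ := hpos n F h R hC hI l hl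
      exact ⟨fun i => (a i : ℝ), ⟨t, c0, a, b, hh, C0, he, rfl⟩, hlt⟩
    · rintro q hq a ⟨t, c0, a', b, hh, C0, he, rfl⟩ κ
      have h1 : Star {fun i => (a' i : ℝ)} q := by
        apply hstar n P q (fun i => (a' i : ℝ)) b hh c0 (|C0| * Real.exp c0) he.2.1
        · intro w hw
          refine (he.2.2.1 w hw).trans ?_
          have hw' : w.re < c0 := hw
          calc C0 * Real.exp w.re ≤ |C0| * Real.exp w.re :=
                mul_le_mul_of_nonneg_right (le_abs_self _) (Real.exp_pos _).le
            _ ≤ |C0| * Real.exp c0 :=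
                mul_le_mul_of_nonneg_left (Real.exp_le_exp.2 hw'.le) (abs_nonneg _)
        · intro w hw M
          have h2 := exp_shift (he.2.2.2 w hw) M
          refine hno (t w) (he.1.1 w hw) _ ?_
          intro i
          rw [← h2 i]
          unfold pt
          push_cast
          rfl
        · exact hq
      exact h1 _ rfl κ
  obtain ⟨l, f, hl, hf, hlim⟩ := hA n A P hyp hP
  obtain ⟨M, c, g, hg, hconv⟩ := hr2i n P l f hf hlim
  have hg0 : g ≠ 0 := by
    rintro rfl
    simp at hg
  obtain ⟨s, hs⟩ : ∃ s, g.eval s = 0 := by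
    have h2 : g.degree ≠ 0 := by
      intro h3
      have h4 : g.natDegree = 0 := Polynomial.natDegree_eq_zero_iff_degree_le_zero.2 h3.le
      omega
    obtain ⟨s, hs⟩ := IsAlgClosed.exists_root g h2
    exact ⟨s, hs⟩
  -- the group generated by the coefficients of `l`
  let φ : (Fin n → ℤ) →+ ℝ :=
    { toFun := fun M => ∑ i, l i * (M i : ℝ)
      map_zero' := by simp
      map_add' := by
        intro x y
        rw [← Finset.sum_add_distrib]
        refine Finset.sum_congr rfl fun i _ => ?_
        simp only [Pi.add_apply]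
        push_cast
        ring }
  rcases AddSubgroup.dense_or_cyclic φ.range with hd | ⟨θ, hθ⟩
  · -- irrational case
    have hd' : Dense (Set.range fun M : Fin n → ℤ => ∑ i, l i * (M i : ℝ)) := hd
    obtain ⟨z0, ρ, ψ, x, hρ, hx1, hx2, hx3, hx4⟩ := harc n F h R hC hI l hl s.re
    obtain ⟨w, hw, N, hN⟩ := hirr n P l g M c s hg0 hs hconv hd' x z0 ρ hρ hx1 hx3 hx4
    exact hno _ (hx2 w hw).1 _ (exp_shift (hx2 w hw).2 N) hN
  · -- rational case
    have hmem : ∀ i, ∃ k : ℤ, l i = (k : ℝ) * θ := by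
      intro i
      have h1 : l i ∈ φ.range := by
        refine ⟨Pi.single i 1, ?_⟩
        show ∑ j, l j * ((Pi.single i (1 : ℤ) : Fin n → ℤ) j : ℝ) = l i
        rw [Finset.sum_eq_single i]
        · simp
        · intro j _ hj
          simp [Pi.single_eq_of_ne hj]
        · intro hi
          exact absurd (Finset.mem_univ i) hi
      rw [hθ] at h1
      obtain ⟨k, hk⟩ := AddSubgroup.mem_closure_singleton.1 h1
      exact ⟨k, by rw [← hk]; simp⟩
    choose k hk using hmem
    have hθ0 : θ ≠ 0 := by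
      rintro rfl
      apply hl
      funext i
      rw [hk i, mul_zero]
      rfl
    obtain ⟨v0, hv0⟩ : ∃ v0 : Fin n → ℤ, ∑ i, k i * v0 i = 1 := by
      have h1 : θ ∈ φ.range := by
        rw [hθ]
        exact AddSubgroup.mem_closure_singleton.2 ⟨1, by simp⟩
      obtain ⟨v0, hv0⟩ := h1
      refine ⟨v0, ?_⟩
      have h2 : ∑ i, l i * (v0 i : ℝ) = θ := hv0
      have h3 : ((∑ i, k i * v0 i : ℤ) : ℝ) * θ = θ := by
        push_cast
        rw [Finset.sum_mul, ← h2]
        refine Finset.sum_congr rfl fun i _ => ?_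
        rw [h2, hk i]
        ring
      have h4 : ((∑ i, k i * v0 i : ℤ) : ℝ) = 1 := by
        have h5 := mul_right_cancel₀ hθ0 (h3.trans (one_mul θ).symm)
        exact h5
      exact_mod_cast h4
    have hk0 : k ≠ 0 := by
      rintro rfl
      simp at hv0
    -- the polynomial in `k`
    set g' : Polynomial ℂ := g.comp (Polynomial.C (θ : ℂ) * Polynomial.X) with hg'
    have haeval : Polynomial.aeval (lin l) g =
        Polynomial.aeval (lin fun i => (k i : ℝ)) g' := by
      rw [hg', Polynomial.aeval_comp]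
      congr 1
      simp only [map_mul, Polynomial.aeval_X, Polynomial.aeval_C]
      congr 1
      apply MvPolynomial.funext
      intro x
      rw [map_mul, eval_lin, eval_lin]
      simp only [MvPolynomial.algebraMap_eq, MvPolynomial.eval_C]
      rw [Finset.mul_sum]
      refine Finset.sum_congr rfl fun i _ => ?_
      rw [hk i]
      push_cast
      ring
    have hθc : (θ : ℂ) ≠ 0 := by exact_mod_cast hθ0
    have hg'0 : g' ≠ 0 := by
      intro h0
      have h1 : g'.comp (Polynomial.C (θ : ℂ)⁻¹ * Polynomial.X) = g := by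
        rw [hg', Polynomial.comp_assoc]
        simp only [Polynomial.mul_comp, Polynomial.C_comp, Polynomial.X_comp]
        rw [← mul_assoc, ← Polynomial.C_mul, mul_inv_cancel₀ hθc, Polynomial.C_1, one_mul,
          Polynomial.comp_X]
      rw [h0, Polynomial.zero_comp] at h1
      exact hg0 h1.symm
    have hs' : g'.eval (s / θ) = 0 := by
      rw [hg', Polynomial.eval_comp]
      simp only [Polynomial.eval_mul, Polynomial.eval_C, Polynomial.eval_X]
      rw [mul_div_cancel₀ _ hθc]
      exact hs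
    obtain ⟨t, c0, a, b, hh, C0, r, μ, hr, hμ, ht, hd, hb, he, hma, hmb, has⟩ :=
      hval n F h R hC hI k v0 (s / θ) hv0
    rw [haeval] at hconv
    obtain ⟨w, hw, N, hN⟩ := hcross n P k v0 g' M c (s / θ) hv0 (fun s' => hadd k hk0 s') hg'0 hs'
      hconv (fun i => (a i : ℝ)) b hh c0 C0 r μ hd hb (by exact_mod_cast hma) hmb hr hμ has
    have h2 := exp_shift (he w hw) N
    refine hno (t w) (ht w hw) _ ?_ hN
    intro i
    rw [← h2 i]
    unfold pt
    push_cast
    rfl

end Pool.Agent.W996.EC
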