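import Pool.Agent.W996.EC.Final
import Pool.Agent.W930.ECCnt
import Pool.Agent.W973.EC.Dich
import Pool.Agent.W335.EC.QFin

/-! EC project: the dichotomy, all parts. -/

set_option autoImplicit false

namespace Pool.Agent.W996.EC

open Pool.Agent

theorem bdd : S_bdd := W101.EC.t_bdd W605.EC.t_plf W605.EC.t_pli W114.ECR.t_res W973.EC.t_loc

theorem quasi : S_Q :=
  Pool.W335.EC.t_Q (_root_.W973.EC.t_dich' (_root_.W973.EC.t_dich (W930.ECCnt.t_cnt gen bdd W114.ECR.t_res))
    W114.ECC.t_conn) W114.ECR.t_res W114.ECR.t_cov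

end Pool.Agent.W996.EC
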